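import Pool.Agent.H769Z.NR.Defs

/-! Basic properties of the boundary and of its Zariski closure. -/

set_option autoImplicit false

namespace Pool.Agent.H769Z.NR

open MvPolynomial Topology Matrix Filter

variable {m n m' n' : Type}

/-- selection matrix -/
def sel {s t : Type} [DecidableEq t] (e : s → t) : Matrix s t ℝ :=
  Matrix.of fun a b => if e a = b then 1 else 0

theorem sel_nonneg {s t : Type} [DecidableEq t] (e : s → t) (a : s) (b : t) : 0 ≤ sel e a b := by
  simp only [sel, Matrix.of_apply]; split_ifs <;> norm_num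

theorem sel_mul {s t u : Type} [DecidableEq t] [Fintype t] (e : s → t) (A : Matrix t u ℝ) :
    sel e * A = A.submatrix e id := by
  ext a b
  simp [sel, Matrix.mul_apply]

theorem mul_selT {s t u : Type} [DecidableEq t] [Fintype t] (e : s → t) (A : Matrix u t ℝ) :
    A * (sel e)ᵀ = A.submatrix id e := by
  ext a b
  simp [sel, Matrix.mul_apply]

theorem sel_sub {s t : Type} [DecidableEq t] [DecidableEq s] {e : s → t}
    (he : Function.Injective e) : (sel e).submatrix id e = 1 := by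
  ext a b
  simp [sel, Matrix.one_apply, he.eq_iff]

/-- nonnegative factorizations of inner size exactly `r` -/
def NF (m n : Type) (r : ℕ) : Set (Matrix m n ℝ) :=
  {M | ∃ (A : Matrix m (Fin r) ℝ) (B : Matrix (Fin r) n ℝ),
    (∀ i k, 0 ≤ A i k) ∧ (∀ k j, 0 ≤ B k j) ∧ M = A * B}

theorem mul_nonneg' {a b c : Type} [Fintype b] {A : Matrix a b ℝ} {B : Matrix b c ℝ}
    (hA : ∀ i k, 0 ≤ A i k) (hB : ∀ k j, 0 ≤ B k j) (i : a) (j : c) : 0 ≤ (A * B) i j := by
  rw [Matrix.mul_apply]
  exact Finset.sum_nonneg fun k _ => mul_nonneg (hA i k) (hB k j)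

theorem mem_NF_of {s : Type} [Fintype s] [DecidableEq s] {r : ℕ} (e : s → Fin r)
    (he : Function.Injective e) {A : Matrix m s ℝ} {B : Matrix s n ℝ} (hA : ∀ i k, 0 ≤ A i k)
    (hB : ∀ k j, 0 ≤ B k j) : A * B ∈ NF m n r := by
  refine ⟨A * sel e, (sel e)ᵀ * B, mul_nonneg' hA (sel_nonneg e),
    mul_nonneg' (fun k j => sel_nonneg e j k) hB, ?_⟩
  rw [Matrix.mul_assoc, ← Matrix.mul_assoc (sel e), mul_selT, sel_sub he, Matrix.one_mul]

theorem nonnegRankLE_eq (r : ℕ) : nonnegRankLE m n r = NF m n r := by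
  ext M
  constructor
  · rintro ⟨s, hs, A, B, hA, hB, rfl⟩
    exact mem_NF_of (Fin.castLE hs) (Fin.castLE_injective hs) hA hB
  · rintro ⟨A, B, hA, hB, rfl⟩
    exact ⟨r, le_rfl, A, B, hA, hB, rfl⟩

theorem mul_mem_rankLE [Fintype n] {r : ℕ} (A : Matrix m (Fin r) ℝ) (B : Matrix (Fin r) n ℝ) :
    A * B ∈ rankLE m n r :=
  (Matrix.rank_mul_le_left A B).trans (by simpa using Matrix.rank_le_card_width A)

theorem NF_subset [Fintype n] (r : ℕ) : NF m n r ⊆ rankLE m n r := by
  rintro _ ⟨A, B, -, -, rfl⟩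
  exact mul_mem_rankLE A B

theorem isClosed_NF [Fintype m] [Fintype n] (r : ℕ) : IsClosed (NF m n r) := by
  refine isClosed_of_closure_subset fun M hM => ?_
  let c : n → ℝ := fun j => ∑ i, M i j + 1
  let O : Set (Matrix m n ℝ) := ⋂ j, {N | ∑ i, N i j < c j}
  have hO : IsOpen O := isOpen_iInter_of_finite fun j =>
    isOpen_lt (continuous_finset_sum _ fun i _ => continuous_apply_apply i j) continuous_const
  have hMO : M ∈ O := Set.mem_iInter.2 fun j => by simp [c]
  let K : Set ((m → Fin r → ℝ) × (Fin r → n → ℝ)) :=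
    Set.Icc (0 : m → Fin r → ℝ) 1 ×ˢ Set.Icc (0 : Fin r → n → ℝ) (fun _ j => c j)
  have hK : IsCompact K := isCompact_Icc.prod isCompact_Icc
  let μ : (m → Fin r → ℝ) × (Fin r → n → ℝ) → Matrix m n ℝ := fun p => of p.1 * of p.2
  have hμ : Continuous μ := Continuous.matrix_mul continuous_fst continuous_snd
  have h1 : O ∩ NF m n r ⊆ μ '' K := by
    rintro N ⟨hNO, A, B, hA, hB, rfl⟩
    refine ⟨(fun i k => A i k / ∑ i', A i' k, fun k j => (∑ i', A i' k) * B k j),
      ⟨⟨fun i k => ?_, fun i k => ?_⟩, ⟨fun k j => ?_, fun k j => ?_⟩⟩, ?_⟩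
    · exact div_nonneg (hA i k) (Finset.sum_nonneg fun i' _ => hA i' k)
    · exact div_le_one_of_le₀ (Finset.single_le_sum (fun i' _ => hA i' k) (Finset.mem_univ i))
        (Finset.sum_nonneg fun i' _ => hA i' k)
    · exact mul_nonneg (Finset.sum_nonneg fun i' _ => hA i' k) (hB k j)
    · have h2 : ∑ i, (A * B) i j < c j := Set.mem_iInter.1 hNO j
      refine le_trans ?_ h2.le
      show (∑ i', A i' k) * B k j ≤ _
      rw [Finset.sum_mul]
      refine Finset.sum_le_sum fun i _ => ?_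
      rw [Matrix.mul_apply]
      exact Finset.single_le_sum (f := fun k => A i k * B k j)
        (fun k _ => mul_nonneg (hA i k) (hB k j)) (Finset.mem_univ k)
    · ext i j
      simp only [μ, Matrix.mul_apply, Matrix.of_apply]
      refine Finset.sum_congr rfl fun k _ => ?_
      by_cases h0 : ∑ i', A i' k = 0
      · have := (Finset.sum_eq_zero_iff_of_nonneg (fun i' _ => hA i' k)).1 h0 i (Finset.mem_univ i)
        simp [this]
      · field_simp
  have h2 : μ '' K ⊆ NF m n r := by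
    rintro _ ⟨p, hp, rfl⟩
    exact ⟨of p.1, of p.2, fun i k => hp.1.1 i k, fun k j => hp.2.1 k j, rfl⟩
  exact h2 (closure_minimal h1 (hK.image hμ).isClosed (hO.inter_closure ⟨hMO, hM⟩))

theorem mem_topBoundary [Fintype m] [Fintype n] {r : ℕ} {M : Matrix m n ℝ} :
    M ∈ topBoundary m n r ↔ M ∈ NF m n r ∧ M ∈ closure (rankLE m n r \ NF m n r) := by
  have hc : IsClosed {M : rankLE m n r | M.1 ∈ NF m n r} :=
    (isClosed_NF r).preimage continuous_subtype_val
  have him : Subtype.val '' ({M : rankLE m n r | M.1 ∈ NF m n r}ᶜ) = rankLE m n r \ NF m n r := by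
    ext N
    simp only [Set.mem_image, Set.mem_compl_iff, Set.mem_setOf_eq, Set.mem_diff]
    constructor
    · rintro ⟨x, hx, rfl⟩; exact ⟨x.2, hx⟩
    · rintro ⟨h1, h2⟩; exact ⟨⟨N, h1⟩, h2, rfl⟩
  rw [topBoundary, nonnegRankLE_eq, frontier_eq_closure_inter_closure, hc.closure_eq,
    Topology.IsInducing.subtypeVal.closure_eq_preimage_closure_image, him]
  constructor
  · rintro ⟨x, hx, rfl⟩; exact hx
  · rintro ⟨h1, h2⟩; exact ⟨⟨M, NF_subset r h1⟩, ⟨h1, h2⟩, rfl⟩

theorem bd_transpose [Fintype m] [Fintype n] {r : ℕ} {M : Matrix m n ℝ}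
    (h : M ∈ topBoundary m n r) : Mᵀ ∈ topBoundary n m r := by
  rw [mem_topBoundary] at h ⊢
  obtain ⟨⟨A, B, hA, hB, rfl⟩, h2⟩ := h
  refine ⟨⟨Bᵀ, Aᵀ, fun i k => hB k i, fun k j => hA j k, Matrix.transpose_mul _ _⟩, ?_⟩
  refine map_mem_closure (f := fun N : Matrix m n ℝ => Nᵀ) continuous_id.matrix_transpose h2 ?_
  rintro N ⟨h3, h4⟩
  refine ⟨by simpa [rankLE] using h3, ?_⟩
  rintro ⟨A', B', hA', hB', h5⟩
  refine h4 ⟨B'ᵀ, A'ᵀ, fun i k => hB' k i, fun k j => hA' j k, ?_⟩
  rw [← Matrix.transpose_mul, ← h5, Matrix.transpose_transpose]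

theorem bd_col [Fintype m] [Fintype n] [Fintype n'] [DecidableEq n] {r : ℕ} {M : Matrix m n ℝ}
    (h : M ∈ topBoundary m n r) {C : Matrix n n' ℝ} (hC : ∀ a b, 0 ≤ C a b) {e : n → n'}
    (he : C.submatrix id e = 1) : M * C ∈ topBoundary m n' r := by
  rw [mem_topBoundary] at h ⊢
  obtain ⟨⟨A, B, hA, hB, rfl⟩, h2⟩ := h
  refine ⟨⟨A, B * C, hA, mul_nonneg' hB hC, Matrix.mul_assoc _ _ _⟩, ?_⟩
  refine map_mem_closure (f := fun N : Matrix m n ℝ => N * C)
    (continuous_id.matrix_mul continuous_const) h2 ?_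
  rintro N ⟨h3, h4⟩
  refine ⟨(Matrix.rank_mul_le_left N C).trans h3, ?_⟩
  rintro ⟨A', B', hA', hB', h5⟩
  refine h4 ⟨A', B'.submatrix id e, hA', fun k j => hB' k (e j), ?_⟩
  have : (N * C).submatrix id e = N := by
    have h6 : (N * C).submatrix id e = N * C.submatrix id e := rfl
    rw [h6, he, Matrix.mul_one]
  have h7 : N * C = A' * B' := h5
  rw [← this, h7]
  rfl

theorem subset_zar (S : Set (Matrix m n ℝ)) : S ⊆ zariskiClosure S := fun M hM _ hp => hp M hM

theorem isClosed_zar (S : Set (Matrix m n ℝ)) : IsClosed (zariskiClosure S) := by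
  have : zariskiClosure S = ⋂ p : MvPolynomial (m × n) ℝ,
      ⋂ (_ : ∀ N ∈ S, eval (fun ij => N ij.1 ij.2) p = 0),
        {M : Matrix m n ℝ | eval (fun ij => M ij.1 ij.2) p = 0} := by
    ext M; simp [zariskiClosure]
  rw [this]
  refine isClosed_iInter fun p => isClosed_iInter fun _ => isClosed_eq ?_ continuous_const
  exact (MvPolynomial.continuous_eval p).comp
    (continuous_pi fun ij => continuous_apply_apply ij.1 ij.2)

theorem zar_map {S : Set (Matrix m n ℝ)} {S' : Set (Matrix m' n' ℝ)}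
    (F : Matrix m n ℝ → Matrix m' n' ℝ) (q : m' × n' → MvPolynomial (m × n) ℝ)
    (hq : ∀ M ij, eval (fun ij => M ij.1 ij.2) (q ij) = F M ij.1 ij.2)
    (hS : ∀ M ∈ S, F M ∈ S') {M : Matrix m n ℝ} (hM : M ∈ zariskiClosure S) :
    F M ∈ zariskiClosure S' := by
  intro p hp
  have key : ∀ N : Matrix m n ℝ, eval (fun ij => N ij.1 ij.2) (bind₁ q p) =
      eval (fun ij => F N ij.1 ij.2) p := by
    intro N
    simp only [← coe_aeval_eq_eval, RingHom.coe_coe, aeval_bind₁]
    congr 2
    funext ij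
    exact hq N ij
  rw [← key]
  exact hM _ fun N hN => by rw [key]; exact hp _ (hS N hN)

theorem zar_line {S : Set (Matrix m n ℝ)} (γ : ℝ → Matrix m n ℝ)
    (hγ : ∀ i j, AnalyticOnNhd ℝ (fun t => γ t i j) Set.univ) {t0 : ℝ}
    (h : ∀ᶠ t in 𝓝 t0, γ t ∈ zariskiClosure S) : γ 0 ∈ zariskiClosure S := by
  intro p hp
  have ha : AnalyticOnNhd ℝ (fun t => aeval (fun ij : m × n => γ t ij.1 ij.2) p) Set.univ :=
    AnalyticOnNhd.aeval_mvPolynomial (f := fun t (ij : m × n) => γ t ij.1 ij.2)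
      (fun ij => hγ ij.1 ij.2) p
  have h2 : (fun t => aeval (fun ij : m × n => γ t ij.1 ij.2) p) =ᶠ[𝓝 t0] 0 := by
    filter_upwards [h] with t ht
    have h3 := ht p hp
    rw [← coe_aeval_eq_eval] at h3
    exact h3
  have h4 := ha.eqOn_zero_of_preconnected_of_eventuallyEq_zero isPreconnected_univ
    (Set.mem_univ t0) h2 (Set.mem_univ 0)
  rw [← coe_aeval_eq_eval]
  exact h4

theorem alg_transpose [Fintype m] [Fintype n] {r : ℕ} {M : Matrix m n ℝ}
    (h : M ∈ algBoundary m n r) : Mᵀ ∈ algBoundary n m r :=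
  zar_map (fun N => Nᵀ) (fun ij => X (ij.2, ij.1)) (fun M ij => by simp)
    (fun _ hM => bd_transpose hM) h

theorem alg_col [Fintype m] [Fintype n] [Fintype n'] [DecidableEq n] {r : ℕ} {M : Matrix m n ℝ}
    (h : M ∈ algBoundary m n r) {C : Matrix n n' ℝ} {e : n → n'}
    (he : C.submatrix id e = 1) : M * C ∈ algBoundary m n' r := by
  classical
  let J : Matrix n n' ℝ := of fun _ b => if b ∈ Set.range e then 0 else 1
  have h0 : M * C = M * (C + (0 : ℝ) • J) := by simp
  rw [h0]
  refine zar_line (fun t => M * (C + t • J)) (fun i j => ?_) (t0 := ∑ a, ∑ b, |C a b| + 1) ?_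
  · simp only [Matrix.mul_apply, Matrix.add_apply, Matrix.smul_apply, smul_eq_mul]
    intro t _
    fun_prop
  · filter_upwards [Ioi_mem_nhds (lt_add_one (∑ a, ∑ b, |C a b|))] with t ht
    refine zar_map (fun N => N * (C + t • J))
      (fun ij => ∑ l, X (ij.1, l) * MvPolynomial.C ((C + t • J) l ij.2))
      (fun M ij => by simp [Matrix.mul_apply]) (fun N hN => bd_col hN (e := e) ?_ ?_) h
    · intro a b
      simp only [J, Matrix.add_apply, Matrix.smul_apply, Matrix.of_apply, smul_eq_mul]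
      split_ifs with hb
      · obtain ⟨c, rfl⟩ := hb
        have : C a (e c) = (1 : Matrix n n ℝ) a c := congrFun (congrFun he a) c
        rw [this, Matrix.one_apply]
        split_ifs <;> norm_num
      · have h1 : |C a b| ≤ ∑ a, ∑ b, |C a b| :=
          (Finset.single_le_sum (f := fun b => |C a b|) (fun _ _ => abs_nonneg _)
            (Finset.mem_univ b)).trans
          (Finset.single_le_sum (f := fun a => ∑ b, |C a b|)
            (fun _ _ => Finset.sum_nonneg fun _ _ => abs_nonneg _) (Finset.mem_univ a))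
        have h2 := neg_abs_le (C a b)
        have h3 : ∑ a, ∑ b, |C a b| < t := ht
        linarith
    · rw [← he]
      ext a b
      simp [J]

/-- the transfer of a component to more columns -/
theorem transfer_col [Fintype m] [Fintype n] [Fintype n'] {r : ℕ} {b : Type}
    (K : Matrix m (Fin r) ℝ → Matrix (Fin r) b ℝ → Prop) (κ : b → n) {e : n → n'}
    (he : Function.Injective e) {φ : Fin r → n} (hφ : Function.Injective φ)
    (hd : ∀ k j, φ k ≠ κ j)
    (h : ∀ A (B : Matrix (Fin r) n ℝ), K A (B.submatrix id κ) → A * B ∈ algBoundary m n r)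
    (A : Matrix m (Fin r) ℝ) (B : Matrix (Fin r) n' ℝ) (hK : K A (B.submatrix id (e ∘ κ))) :
    A * B ∈ algBoundary m n' r := by
  classical
  have step : ∀ B : Matrix (Fin r) n' ℝ, K A (B.submatrix id (e ∘ κ)) →
      (B.submatrix id (e ∘ φ)).det ≠ 0 → A * B ∈ algBoundary m n' r := by
    intro B hK hdet
    have h1 := h A (B.submatrix id e) hK
    have h2 := alg_col h1 (C := sel e + (sel φ)ᵀ * ((B.submatrix id (e ∘ φ))⁻¹ *
      (B - B.submatrix id e * sel e))) (e := e) (by
        rw [← mul_selT, Matrix.add_mul, Matrix.mul_assoc, Matrix.mul_assoc, Matrix.sub_mul,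
          Matrix.mul_assoc, mul_selT e (sel e), sel_sub he, Matrix.mul_one, mul_selT, sub_self]
        simp)
    rwa [Matrix.mul_assoc, Matrix.mul_add, ← Matrix.mul_assoc _ (sel φ)ᵀ, mul_selT,
      Matrix.submatrix_submatrix, Function.id_comp, ← Matrix.mul_assoc,
      Matrix.mul_nonsing_inv _ (isUnit_iff_ne_zero.2 hdet), Matrix.one_mul, add_sub_cancel] at h2
  let G : Matrix (Fin r) n' ℝ := (1 - B.submatrix id (e ∘ φ)) * sel (e ∘ φ)
  have h0 : A * B = A * (B + (0 : ℝ) • G) := by simp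
  rw [h0]
  refine zar_line (fun t => A * (B + t • G)) (fun i j => ?_) (t0 := 1) ?_
  · simp only [Matrix.mul_apply, Matrix.add_apply, Matrix.smul_apply, smul_eq_mul]
    intro t _
    fun_prop
  · have hc : Continuous fun t : ℝ => ((B + t • G).submatrix id (e ∘ φ)).det :=
      ((continuous_const.add (continuous_id.smul continuous_const)).matrix_submatrix _ _).matrix_det
    have h1 : ((B + (1 : ℝ) • G).submatrix id (e ∘ φ)).det ≠ 0 := by
      have : (B + (1 : ℝ) • G).submatrix id (e ∘ φ) = 1 := by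
        rw [← mul_selT, one_smul, Matrix.add_mul, Matrix.mul_assoc, mul_selT _ (sel _),
          sel_sub (he.comp hφ), Matrix.mul_one, mul_selT, add_sub_cancel]
      rw [this, det_one]; exact one_ne_zero
    filter_upwards [hc.continuousAt.eventually_ne h1] with t ht
    refine step _ ?_ ht
    have : (B + t • G).submatrix id (e ∘ κ) = B.submatrix id (e ∘ κ) := by
      ext k j
      have : G k (e (κ j)) = 0 := by
        simp only [G, Matrix.mul_apply, sel, Matrix.of_apply, Function.comp, he.eq_iff, hd,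
          if_false, mul_zero, Finset.sum_const_zero]
      simp [this]
    rwa [this]

theorem transfer_row [Fintype m] [Fintype n] [Fintype m'] {r : ℕ} {a : Type}
    (K : Matrix a (Fin r) ℝ → Matrix (Fin r) n ℝ → Prop) (ρ : a → m) {e : m → m'}
    (he : Function.Injective e) {φ : Fin r → m} (hφ : Function.Injective φ)
    (hd : ∀ k j, φ k ≠ ρ j)
    (h : ∀ (A : Matrix m (Fin r) ℝ) B, K (A.submatrix ρ id) B → A * B ∈ algBoundary m n r)
    (A : Matrix m' (Fin r) ℝ) (B : Matrix (Fin r) n ℝ) (hK : K (A.submatrix (e ∘ ρ) id) B) :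
    A * B ∈ algBoundary m' n r := by
  have := transfer_col (m := n) (n := m) (n' := m') (fun X Y => K Yᵀ Xᵀ) ρ he hφ hd
    (fun X Y hXY => by
      have := alg_transpose (h Yᵀ Xᵀ hXY)
      rwa [← Matrix.transpose_mul, Matrix.transpose_transpose] at this) Bᵀ Aᵀ hK
  have := alg_transpose this
  rwa [← Matrix.transpose_mul, Matrix.transpose_transpose] at this

end Pool.Agent.H769Z.NR
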