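import Mathlib

/-! Nonnegative rank, the topological boundary inside the determinantal variety, and its
Zariski closure. -/

set_option autoImplicit false

namespace Pool.Agent.H769Z.NR

/-- The real `m × n` matrices of nonnegative rank at most `r`: products `A * B` of entrywise
nonnegative matrices with inner size `s ≤ r`. -/
def nonnegRankLE (m n : Type) (r : ℕ) : Set (Matrix m n ℝ) :=
  {M | ∃ s : ℕ, s ≤ r ∧ ∃ (A : Matrix m (Fin s) ℝ) (B : Matrix (Fin s) n ℝ),
    (∀ i k, 0 ≤ A i k) ∧ (∀ k j, 0 ≤ B k j) ∧ M = A * B}

/-- The real `m × n` matrices of rank at most `r`. -/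
def rankLE (m n : Type) [Fintype n] (r : ℕ) : Set (Matrix m n ℝ) := {M | M.rank ≤ r}

/-- The boundary of `nonnegRankLE` as a subset of the topological space `rankLE`
(Euclidean subspace topology), viewed as a set of matrices. -/
def topBoundary (m n : Type) [Fintype n] (r : ℕ) : Set (Matrix m n ℝ) :=
  Subtype.val '' frontier {M : rankLE m n r | M.1 ∈ nonnegRankLE m n r}

/-- The Zariski closure of a set of real matrices: the common zeros of all real polynomials in
the entries that vanish on the set. -/
def zariskiClosure {m n : Type} (S : Set (Matrix m n ℝ)) : Set (Matrix m n ℝ) :=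
  {M | ∀ p : MvPolynomial (m × n) ℝ,
    (∀ N ∈ S, MvPolynomial.eval (fun ij => N ij.1 ij.2) p = 0) →
      MvPolynomial.eval (fun ij => M ij.1 ij.2) p = 0}

/-- The algebraic boundary. -/
def algBoundary (m n : Type) [Fintype n] (r : ℕ) : Set (Matrix m n ℝ) :=
  zariskiClosure (topBoundary m n r)

end Pool.Agent.H769Z.NR
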