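import Mathlib

/-! Derivations with prescribed values on algebraically independent elements, and the
resulting algebraic statement about critical factorizations. -/

set_option autoImplicit false

namespace Pool.Agent.H769Z.NR

open MvPolynomial Matrix

theorem exists_deriv {K : Type} [Field K] [Algebra ℝ K] {ι : Type} [DecidableEq ι] (x : ι → K)
    (hx : AlgebraicIndependent ℝ x) (i0 : ι) :
    ∃ δ : K → K, (∀ a b, δ (a + b) = δ a + δ b) ∧ (∀ a b, δ (a * b) = δ a * b + a * δ b) ∧
      ∀ i, δ (x i) = if i = i0 then 1 else 0 := by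
  classical
  obtain ⟨t, hst, ht⟩ := exists_isTranscendenceBasis_superset (R := ℝ) (s := Set.range x)
    hx.coe_range
  let φ : (MvPolynomial t ℝ) →ₐ[ℝ] K := aeval (fun v : t => (v : K))
  have hφ : Function.Injective φ := ht.1
  let : Algebra (MvPolynomial t ℝ) K := φ.toRingHom.toAlgebra
  have : FaithfulSMul (MvPolynomial t ℝ) K := (faithfulSMul_iff_algebraMap_injective (MvPolynomial t ℝ) K).2 hφ
  have : IsScalarTower ℝ (MvPolynomial t ℝ) K := IsScalarTower.of_algebraMap_eq fun r => (φ.commutes r).symm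
  have : Algebra.IsAlgebraic (MvPolynomial t ℝ) K := by
    have h1 := ht.isAlgebraic
    refine ⟨fun a => ?_⟩
    have h2 := h1.isAlgebraic a
    exact (isAlgebraic_ringHom_iff_of_comp_eq ht.1.aevalEquiv (RingHom.id K)
      Function.injective_id (by
        ext z
        · simp [RingHom.algebraMap_toAlgebra, φ]
        · simp [RingHom.algebraMap_toAlgebra, φ])).1 (by simpa using h2)
  let : Algebra (FractionRing (MvPolynomial t ℝ)) K := FractionRing.liftAlgebra (MvPolynomial t ℝ) K
  have : IsScalarTower (MvPolynomial t ℝ) (FractionRing (MvPolynomial t ℝ)) K := FractionRing.isScalarTower_liftAlgebra (MvPolynomial t ℝ) K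
  have : Algebra.IsAlgebraic (FractionRing (MvPolynomial t ℝ)) K := Algebra.IsAlgebraic.extendScalars (R := (MvPolynomial t ℝ)) (IsFractionRing.injective (MvPolynomial t ℝ) (FractionRing (MvPolynomial t ℝ)))
  have : CharZero (FractionRing (MvPolynomial t ℝ)) := algebraRat.charZero (FractionRing (MvPolynomial t ℝ))
  have : Algebra.IsSeparable (FractionRing (MvPolynomial t ℝ)) K := Algebra.IsAlgebraic.isSeparable_of_perfectField
  have : Algebra.FormallyEtale (FractionRing (MvPolynomial t ℝ)) K := Algebra.FormallyEtale.of_isSeparable (FractionRing (MvPolynomial t ℝ)) K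
  have : Algebra.FormallySmooth (MvPolynomial t ℝ) (FractionRing (MvPolynomial t ℝ)) := Algebra.FormallySmooth.of_isLocalization (nonZeroDivisors (MvPolynomial t ℝ))
  have : Algebra.FormallySmooth (MvPolynomial t ℝ) K := Algebra.FormallySmooth.comp (MvPolynomial t ℝ) (FractionRing (MvPolynomial t ℝ)) K
  let ψ0 : (MvPolynomial t ℝ) →ₐ[ℝ] (TrivSqZeroExt K K) := aeval (fun v : t =>
    (TrivSqZeroExt.inl (v : K) + TrivSqZeroExt.inr (if (v : K) = x i0 then 1 else 0) : (TrivSqZeroExt K K)))
  let instB : Algebra (MvPolynomial t ℝ) (TrivSqZeroExt K K) := ψ0.toRingHom.toAlgebra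
  have hcomp : (TrivSqZeroExt.fstHom ℝ K K).comp ψ0 = φ := by
    apply MvPolynomial.algHom_ext
    intro v
    simp only [ψ0, φ, AlgHom.comp_apply, aeval_X, TrivSqZeroExt.fstHom_apply,
      TrivSqZeroExt.fst_add, TrivSqZeroExt.fst_inl, TrivSqZeroExt.fst_inr, add_zero]
  let g : (TrivSqZeroExt K K) →ₐ[(MvPolynomial t ℝ)] K :=
    { (TrivSqZeroExt.fstHom ℝ K K).toRingHom with
      commutes' := fun s => by
        have := congrArg (fun f => f s) hcomp
        exact this }
  have hg : Function.Surjective g := fun a => ⟨TrivSqZeroExt.inl a, rfl⟩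
  have hnil : IsNilpotent (RingHom.ker (g : (TrivSqZeroExt K K) →+* K)) := by
    refine ⟨2, ?_⟩
    rw [show (2 : ℕ) = 1 + 1 from rfl, Submodule.pow_succ, Submodule.pow_one, Ideal.zero_eq_bot,
      eq_bot_iff, Ideal.mul_le]
    intro a ha b hb
    have ha' : a.fst = 0 := ha
    have hb' : b.fst = 0 := hb
    rw [Ideal.mem_bot]
    ext
    · simp [ha']
    · simp [ha', hb']
  let ψ : K →ₐ[(MvPolynomial t ℝ)] (TrivSqZeroExt K K) := Algebra.FormallySmooth.liftOfSurjective (AlgHom.id (MvPolynomial t ℝ) K) g hg hnil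
  have hψ : ∀ a, (ψ a).fst = a := fun a =>
    Algebra.FormallySmooth.liftOfSurjective_apply (AlgHom.id (MvPolynomial t ℝ) K) g hg hnil a
  refine ⟨fun a => (ψ a).snd, fun a b => by simp, fun a b => ?_, fun i => ?_⟩
  · simp only [map_mul, TrivSqZeroExt.snd_mul, hψ, smul_eq_mul, MulOpposite.smul_eq_mul_unop,
      MulOpposite.unop_op]
    ring
  · have h1 : x i = algebraMap (MvPolynomial t ℝ) K (X ⟨x i, hst ⟨i, rfl⟩⟩) := by
      simp [RingHom.algebraMap_toAlgebra, φ]
    have h2 : ψ (x i) = ψ0 (X ⟨x i, hst ⟨i, rfl⟩⟩) := by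
      have h3 := ψ.commutes (X ⟨x i, hst ⟨i, rfl⟩⟩)
      rw [← h1] at h3
      exact h3
    simp only [h2, ψ0, aeval_X, TrivSqZeroExt.snd_add, TrivSqZeroExt.snd_inl,
      TrivSqZeroExt.snd_inr, zero_add, hx.injective.eq_iff]

/-- critical factorizations: after a change of basis, a nonzero multiplier supported on the zero
entries annihilates all infinitesimal changes of basis -/
def CritAt {R : Type} [CommRing R] {a b r : Type} [Fintype a] [Fintype b] [Fintype r]
    [DecidableEq r] (A : Matrix a r R) (B : Matrix r b R) (g g' : Matrix r r R)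
    (LA : Matrix a r R) (LB : Matrix r b R) : Prop :=
  g * g' = 1 ∧ g' * g = 1 ∧ (∀ i k, LA i k * (A * g) i k = 0) ∧
    (∀ k j, LB k j * (g' * B) k j = 0) ∧ LAᵀ * (A * g) = (g' * B) * LBᵀ

theorem CritAt.map {R R' : Type} [CommRing R] [CommRing R'] (f : R →+* R') {a b r : Type}
    [Fintype a] [Fintype b] [Fintype r] [DecidableEq r] {A : Matrix a r R} {B : Matrix r b R}
    {g g' : Matrix r r R} {LA : Matrix a r R} {LB : Matrix r b R} (h : CritAt A B g g' LA LB) :
    CritAt (A.map f) (B.map f) (g.map f) (g'.map f) (LA.map f) (LB.map f) := by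
  obtain ⟨h1, h2, h3, h4, h5⟩ := h
  refine ⟨?_, ?_, fun i k => ?_, fun k j => ?_, ?_⟩
  · rw [← Matrix.map_mul, h1, Matrix.map_one _ f.map_zero f.map_one]
  · rw [← Matrix.map_mul, h2, Matrix.map_one _ f.map_zero f.map_one]
  · rw [← Matrix.map_mul, Matrix.map_apply, Matrix.map_apply, ← map_mul, h3, map_zero]
  · rw [← Matrix.map_mul, Matrix.map_apply, Matrix.map_apply, ← map_mul, h4, map_zero]
  · rw [← Matrix.map_mul, ← Matrix.map_mul, ← Matrix.transpose_map, ← Matrix.transpose_map,
      ← Matrix.map_mul, ← Matrix.map_mul, h5]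

section
variable {K : Type} [Field K] {δ : K → K} (hadd : ∀ a b, δ (a + b) = δ a + δ b)
  (hmul : ∀ a b, δ (a * b) = δ a * b + a * δ b)
include hadd

theorem der_zero : δ 0 = 0 := by
  have := hadd 0 0
  simpa using this

theorem der_sum {ι : Type} (s : Finset ι) (f : ι → K) : δ (∑ i ∈ s, f i) = ∑ i ∈ s, δ (f i) := by
  classical
  induction s using Finset.induction_on with
  | empty => simpa using der_zero hadd
  | insert a s ha ih => rw [Finset.sum_insert ha, Finset.sum_insert ha, hadd, ih]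

include hmul

theorem der_matmul {a b c : Type} [Fintype b] (M : Matrix a b K) (N : Matrix b c K) :
    (M * N).map δ = M.map δ * N + M * N.map δ := by
  ext i j
  simp only [Matrix.map_apply, Matrix.mul_apply, Matrix.add_apply, der_sum hadd, hmul,
    Finset.sum_add_distrib]

theorem der_one_mat {r : Type} [DecidableEq r] : (1 : Matrix r r K).map δ = 0 := by
  ext i j
  have h1 : δ 1 = 0 := by
    have := hmul 1 1
    simpa using this
  by_cases h : i = j
  · simp [h, h1]
  · simp [h, der_zero hadd]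

theorem crit_der {a b r : Type} [Fintype a] [Fintype b] [Fintype r] [DecidableEq r]
    {A : Matrix a r K} {B : Matrix r b K} {g g' : Matrix r r K} {LA : Matrix a r K}
    {LB : Matrix r b K} (h : CritAt A B g g' LA LB) :
    trace (LAᵀ * (A.map δ * g)) + trace ((g' * B.map δ) * LBᵀ) = 0 := by
  obtain ⟨h1, h2, h3, h4, h5⟩ := h
  have e1 : trace (LAᵀ * (A * g).map δ) = 0 := by
    simp only [trace, diag, Matrix.mul_apply (M := LAᵀ), Matrix.transpose_apply, Matrix.map_apply]
    refine Finset.sum_eq_zero fun k _ => Finset.sum_eq_zero fun i _ => ?_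
    rcases mul_eq_zero.1 (h3 i k) with h | h
    · rw [h, zero_mul]
    · rw [h, der_zero hadd, mul_zero]
  have e2 : trace ((g' * B).map δ * LBᵀ) = 0 := by
    simp only [trace, diag, Matrix.mul_apply (N := LBᵀ), Matrix.transpose_apply, Matrix.map_apply]
    refine Finset.sum_eq_zero fun k _ => Finset.sum_eq_zero fun j _ => ?_
    rcases mul_eq_zero.1 (h4 k j) with h | h
    · rw [h, mul_zero]
    · rw [h, der_zero hadd, zero_mul]
  have e3 : g'.map δ * g = - (g' * g.map δ) := by
    have := der_matmul hadd hmul g' g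
    rw [h2, der_one_mat hadd hmul] at this
    exact eq_neg_of_add_eq_zero_left this.symm
  rw [der_matmul hadd hmul, Matrix.mul_add, trace_add] at e1
  rw [der_matmul hadd hmul, Matrix.add_mul, trace_add] at e2
  have e4 : trace (LAᵀ * (A * g.map δ)) = trace ((g' * B) * LBᵀ * (g' * g.map δ)) := by
    rw [← h5]
    congr 1
    rw [Matrix.mul_assoc, Matrix.mul_assoc, ← Matrix.mul_assoc g, h1, Matrix.one_mul]
  have e5 : trace (g'.map δ * B * LBᵀ) = - trace ((g' * B) * LBᵀ * (g' * g.map δ)) := by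
    rw [trace_mul_comm (g' * B * LBᵀ), ← trace_neg, ← Matrix.neg_mul, ← e3]
    congr 1
    rw [Matrix.mul_assoc (g'.map δ) g, ← Matrix.mul_assoc g, ← Matrix.mul_assoc g, h1,
      Matrix.one_mul, Matrix.mul_assoc]
  linear_combination e1 + e2 - e4 - e5

end

theorem crit_zero {K : Type} [Field K] [Algebra ℝ K] {a b r : Type} [Fintype a] [Fintype b]
    [Fintype r] [DecidableEq r] {A : Matrix a r K} {B : Matrix r b K} {g g' : Matrix r r K}
    {LA : Matrix a r K} {LB : Matrix r b K} (h : CritAt A B g g' LA LB)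
    (hx : AlgebraicIndependent ℝ
      (Sum.elim (fun p : a × r => A p.1 p.2) (fun p : r × b => B p.1 p.2))) :
    LA = 0 ∧ LB = 0 := by
  classical
  constructor
  · have : LA * gᵀ = 0 := by
      ext i l
      obtain ⟨δ, hadd, hmul, hδ⟩ := exists_deriv _ hx (Sum.inl (i, l))
      have h1 := crit_der hadd hmul h
      have hB : B.map δ = 0 := by
        ext k j
        simpa using hδ (Sum.inr (k, j))
      have hA : A.map δ = Matrix.single i l 1 := by
        ext i' l'
        have := hδ (Sum.inl (i', l'))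
        simp only [Sum.elim_inl, Sum.inl.injEq, Prod.mk.injEq] at this
        simp only [Matrix.map_apply, this, Matrix.single, Matrix.of_apply, eq_comm]
      rw [hB, hA, Matrix.mul_zero, Matrix.zero_mul, trace_zero, add_zero, ← Matrix.mul_assoc,
        trace_mul_comm, ← Matrix.mul_assoc, trace_mul_single] at h1
      have h2 : (g * LAᵀ) l i = 0 := by simpa using h1
      rw [Matrix.zero_apply, ← h2, ← Matrix.transpose_apply (g * LAᵀ), Matrix.transpose_mul,
        Matrix.transpose_transpose]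
    have h3 : LA * gᵀ * g'ᵀ = LA := by
      rw [Matrix.mul_assoc, ← Matrix.transpose_mul, h.2.1, Matrix.transpose_one, Matrix.mul_one]
    rw [← h3, this, Matrix.zero_mul]
  · have : g'ᵀ * LB = 0 := by
      ext l j
      obtain ⟨δ, hadd, hmul, hδ⟩ := exists_deriv _ hx (Sum.inr (l, j))
      have h1 := crit_der hadd hmul h
      have hA : A.map δ = 0 := by
        ext k j
        simpa using hδ (Sum.inl (k, j))
      have hB : B.map δ = Matrix.single l j 1 := by
        ext i' l'
        have := hδ (Sum.inr (i', l'))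
        simp only [Sum.elim_inr, Sum.inr.injEq, Prod.mk.injEq] at this
        simp only [Matrix.map_apply, this, Matrix.single, Matrix.of_apply, eq_comm]
      rw [hB, hA, Matrix.zero_mul, Matrix.mul_zero, trace_zero, zero_add, trace_mul_comm,
        ← Matrix.mul_assoc, trace_mul_single] at h1
      have h2 : (LBᵀ * g') j l = 0 := by simpa using h1
      rw [Matrix.zero_apply, ← h2, ← Matrix.transpose_apply (LBᵀ * g'), Matrix.transpose_mul,
        Matrix.transpose_transpose]
    have h3 : gᵀ * (g'ᵀ * LB) = LB := by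
      rw [← Matrix.mul_assoc, ← Matrix.transpose_mul, h.2.1, Matrix.transpose_one, Matrix.one_mul]
    rw [← h3, this, Matrix.mul_zero]

/-- the coordinates of a pair of matrices -/
def coords {R : Type} {a b r : Type} (A : Matrix a r R) (B : Matrix r b R) :
    (a × r) ⊕ (r × b) → R :=
  Sum.elim (fun p : a × r => A p.1 p.2) (fun p : r × b => B p.1 p.2)

/-- critical pairs -/
def Crit {a b r : Type} [Fintype a] [Fintype b] [Fintype r]
    [DecidableEq r] (A : Matrix a r ℝ) (B : Matrix r b ℝ) : Prop :=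
  ∃ g g' LA LB, CritAt A B g g' LA LB ∧ ¬ (LA = 0 ∧ LB = 0)

theorem sard (a b r : Type) [Fintype a] [Fintype b] [Fintype r] [DecidableEq r] :
    ∃ D : MvPolynomial ((a × r) ⊕ (r × b)) ℝ, D ≠ 0 ∧
      ∀ (A : Matrix a r ℝ) (B : Matrix r b ℝ), Crit A B → eval (coords A B) D = 0 := by
  classical
  by_contra hcon
  push Not at hcon
  let C : Type := {y : Matrix a r ℝ × Matrix r b ℝ × Matrix r r ℝ × Matrix r r ℝ ×
      Matrix a r ℝ × Matrix r b ℝ × ℝ //
      CritAt y.1 y.2.1 y.2.2.1 y.2.2.2.1 y.2.2.2.2.1 y.2.2.2.2.2.1 ∧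
      y.2.2.2.2.2.2 * (∑ i, ∑ k, y.2.2.2.2.1 i k ^ 2 + ∑ k, ∑ j, y.2.2.2.2.2.1 k j ^ 2) = 1}
  let A : Matrix a r (C → ℝ) := Matrix.of fun i k y => y.1.1 i k
  let B : Matrix r b (C → ℝ) := Matrix.of fun i k y => y.1.2.1 i k
  let g : Matrix r r (C → ℝ) := Matrix.of fun i k y => y.1.2.2.1 i k
  let g' : Matrix r r (C → ℝ) := Matrix.of fun i k y => y.1.2.2.2.1 i k
  let LA : Matrix a r (C → ℝ) := Matrix.of fun i k y => y.1.2.2.2.2.1 i k
  let LB : Matrix r b (C → ℝ) := Matrix.of fun i k y => y.1.2.2.2.2.2.1 i k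
  let u : C → ℝ := fun y => y.1.2.2.2.2.2.2
  have hC : CritAt A B g g' LA LB := by
    refine ⟨?_, ?_, fun i k => ?_, fun k j => ?_, ?_⟩
    · ext i j y
      have := congrFun (congrFun y.2.1.1 i) j
      simpa [Matrix.mul_apply, Matrix.one_apply, g, g', ite_apply] using this
    · ext i j y
      have := congrFun (congrFun y.2.1.2.1 i) j
      simpa [Matrix.mul_apply, Matrix.one_apply, g, g', ite_apply] using this
    · ext y
      have := y.2.1.2.2.1 i k
      simpa [Matrix.mul_apply, A, g, LA] using this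
    · ext y
      have := y.2.1.2.2.2.1 k j
      simpa [Matrix.mul_apply, B, g', LB] using this
    · ext i j y
      have := congrFun (congrFun y.2.1.2.2.2.2 i) j
      simpa [Matrix.mul_apply, A, B, g, g', LA, LB] using this
  have hu : u * (∑ i, ∑ k, LA i k ^ 2 + ∑ k, ∑ j, LB k j ^ 2) = 1 := by
    ext y
    have := y.2.2
    simpa [u, LA, LB] using this
  let φ : MvPolynomial ((a × r) ⊕ (r × b)) ℝ →ₐ[ℝ] (C → ℝ) := aeval (coords A B)
  have hφ : ∀ D, D ≠ 0 → φ D ≠ 0 := by
    intro D hD h0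
    obtain ⟨A0, B0, ⟨g0, g0', LA0, LB0, h1, h2⟩, h3⟩ := hcon D hD
    have hs : (∑ i, ∑ k, LA0 i k ^ 2 + ∑ k, ∑ j, LB0 k j ^ 2) ≠ 0 := by
      intro hs
      apply h2
      have n1 : 0 ≤ ∑ i, ∑ k, LA0 i k ^ 2 :=
        Finset.sum_nonneg fun _ _ => Finset.sum_nonneg fun _ _ => sq_nonneg _
      have n2 : 0 ≤ ∑ k, ∑ j, LB0 k j ^ 2 :=
        Finset.sum_nonneg fun _ _ => Finset.sum_nonneg fun _ _ => sq_nonneg _
      have z1 : ∑ i, ∑ k, LA0 i k ^ 2 = 0 := by linarith
      have z2 : ∑ k, ∑ j, LB0 k j ^ 2 = 0 := by linarith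
      rw [Finset.sum_eq_zero_iff_of_nonneg
        (fun _ _ => Finset.sum_nonneg fun _ _ => sq_nonneg _)] at z1 z2
      constructor
      · ext i k
        have := (Finset.sum_eq_zero_iff_of_nonneg (fun _ _ => sq_nonneg _)).1
          (z1 i (Finset.mem_univ _)) k (Finset.mem_univ _)
        simpa using this
      · ext i k
        have := (Finset.sum_eq_zero_iff_of_nonneg (fun _ _ => sq_nonneg _)).1
          (z2 i (Finset.mem_univ _)) k (Finset.mem_univ _)
        simpa using this
    let y : C := ⟨(A0, B0, g0, g0', LA0, LB0, (∑ i, ∑ k, LA0 i k ^ 2 + ∑ k, ∑ j, LB0 k j ^ 2)⁻¹),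
      h1, inv_mul_cancel₀ hs⟩
    apply h3
    have e : (Pi.evalAlgHom ℝ (fun _ : C => ℝ) y).comp φ = aeval (coords A0 B0) := by
      apply MvPolynomial.algHom_ext
      rintro (p | p) <;> simp [φ, coords, A, B, y]
    have := congrArg (fun f => f D) e
    simp only [AlgHom.comp_apply, h0, map_zero] at this
    rw [← coe_aeval_eq_eval]
    exact this.symm
  obtain ⟨P, hP, -, hdisj⟩ := Ideal.exists_le_prime_disjoint (⊥ : Ideal (C → ℝ))
    ((nonZeroDivisors (MvPolynomial ((a × r) ⊕ (r × b)) ℝ)).map φ) (by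
      rw [Set.disjoint_left]
      rintro x hx ⟨D, hD, rfl⟩
      exact hφ D (nonZeroDivisors.ne_zero hD) hx)
  let π : (C → ℝ) →ₐ[ℝ] FractionRing ((C → ℝ) ⧸ P) :=
    (IsScalarTower.toAlgHom ℝ ((C → ℝ) ⧸ P) _).comp (Ideal.Quotient.mkₐ ℝ P)
  have hπ : ∀ x, π x = 0 → x ∈ P := by
    intro x hx
    have : (Ideal.Quotient.mk P x) = 0 :=
      IsFractionRing.injective ((C → ℝ) ⧸ P) (FractionRing ((C → ℝ) ⧸ P)) (by simpa [π] using hx)
    exact Ideal.Quotient.eq_zero_iff_mem.1 this
  have hK := hC.map π.toRingHom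
  have hind : AlgebraicIndependent ℝ
      (Sum.elim (fun p : a × r => (A.map π.toRingHom) p.1 p.2)
        (fun p : r × b => (B.map π.toRingHom) p.1 p.2)) := by
    rw [algebraicIndependent_iff]
    intro D hD
    by_contra hne
    have e : π.comp φ = aeval (Sum.elim (fun p : a × r => (A.map π.toRingHom) p.1 p.2)
        (fun p : r × b => (B.map π.toRingHom) p.1 p.2)) := by
      apply MvPolynomial.algHom_ext
      rintro (p | p) <;> simp [φ, coords]
    rw [← e] at hD
    exact Set.disjoint_left.1 hdisj (hπ _ hD) ⟨D, mem_nonZeroDivisors_of_ne_zero hne, rfl⟩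
  obtain ⟨z1, z2⟩ := crit_zero hK hind
  have := congrArg π hu
  simp only [map_mul, map_add, map_sum, map_pow, map_one] at this
  have z1' : ∀ i k, π (LA i k) = 0 := fun i k => congrFun (congrFun z1 i) k
  have z2' : ∀ i k, π (LB i k) = 0 := fun i k => congrFun (congrFun z2 i) k
  simp [z1', z2'] at this

end Pool.Agent.H769Z.NR
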