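import Pool.Agent.H769Z.NR.Bd
import Pool.Agent.H769Z.NR.Sard

/-! Local structure of factorizations. -/

set_option autoImplicit false

namespace Pool.Agent.H769Z.NR

open MvPolynomial Topology Matrix Filter

variable {m n : Type}

/-- one step of Gaussian elimination -/
noncomputable def piv (N : Matrix m n ℝ) (i : m) (j : n) : Matrix m n ℝ :=
  Matrix.of fun a b => N a b - N a j / N i j * N i b

theorem rank_piv [Fintype m] [Fintype n] {N : Matrix m n ℝ} {i : m} {j : n} (h : N i j ≠ 0) :
    (piv N i j).rank < N.rank := by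
  classical
  unfold Matrix.rank
  apply Submodule.finrank_lt_finrank_of_lt
  rw [lt_iff_le_and_ne]
  constructor
  · rintro _ ⟨v, rfl⟩
    refine ⟨v - Pi.single j ((∑ b, N i b * v b) / N i j), ?_⟩
    ext a
    simp only [Matrix.mulVecLin_apply, Matrix.mulVec_sub, Pi.sub_apply, Matrix.mulVec_single,
      piv, Matrix.mulVec, dotProduct, Matrix.of_apply, sub_mul, Finset.sum_sub_distrib, mul_sub]
    congr 1
    rw [Finset.sum_eq_single j (by intro b _ hb; simp [Pi.single_eq_of_ne hb]) (by simp)]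
    simp only [Pi.single_eq_same, mul_assoc, ← Finset.mul_sum]
    ring
  · intro heq
    have : N.mulVecLin (Pi.single j 1) ∈ LinearMap.range (piv N i j).mulVecLin := by
      rw [heq]; exact ⟨_, rfl⟩
    obtain ⟨v, hv⟩ := this
    have h2 := congrFun hv i
    simp only [Matrix.mulVecLin_apply, piv, Matrix.mulVec, dotProduct, Matrix.of_apply,
      div_self h, one_mul, sub_self, zero_mul, Finset.sum_const_zero] at h2
    rw [Finset.sum_eq_single j (by intro b _ hb; simp [Pi.single_eq_of_ne hb]) (by simp)] at h2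
    simp only [Pi.single_eq_same, mul_one] at h2
    exact h h2.symm

theorem piv_fact {r : ℕ} {N : Matrix m n ℝ} {i : m} {j : n} {U : Matrix m (Fin r) ℝ}
    {W : Matrix (Fin r) n ℝ} (h : U * W = piv N i j) :
    (Matrix.of fun a => Fin.cons (N a j / N i j) (U a) : Matrix m (Fin (r + 1)) ℝ) *
      (Matrix.of (Fin.cons (N i) W) : Matrix (Fin (r + 1)) n ℝ) = N := by
  ext a b
  have := congrFun (congrFun h a) b
  simp only [Matrix.mul_apply, piv, Matrix.of_apply] at this
  simp only [Matrix.mul_apply, Fin.sum_univ_succ, Matrix.of_apply, Fin.cons_zero, Fin.cons_succ,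
    this]
  ring

theorem small_fact [Fintype m] [Fintype n] (r : ℕ) : ∀ (K : Matrix m n ℝ) (c : ℝ), K.rank ≤ r →
    0 ≤ c → (∀ i j, |K i j| ≤ c) → ∃ (U : Matrix m (Fin r) ℝ) (W : Matrix (Fin r) n ℝ),
      U * W = K ∧ (∀ i k, |U i k| ≤ 1) ∧ ∀ k j, |W k j| ≤ 2 ^ r * c := by
  induction r with
  | zero =>
    intro K c hK _ _
    refine ⟨0, 0, ?_, fun _ k => k.elim0, fun k => k.elim0⟩
    ext i j
    by_contra h
    have h' : K i j ≠ 0 := fun h0 => h (by simp [h0])
    have := rank_piv h'
    omega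
  | succ r ih =>
    intro K c hK hc hb
    by_cases h0 : K = 0
    · refine ⟨0, 0, by simp [h0], by simp, fun k j => ?_⟩
      simp only [Matrix.zero_apply, abs_zero]
      positivity
    have hne : Nonempty (m × n) := by
      by_contra hne
      apply h0
      ext i j
      exact (hne ⟨(i, j)⟩).elim
    obtain ⟨⟨i, j⟩, hmax⟩ := Finite.exists_max fun p : m × n => |K p.1 p.2|
    have hij : K i j ≠ 0 := by
      intro h
      apply h0
      ext a b
      have := hmax (a, b)
      simp only [h, abs_zero] at this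
      exact abs_nonpos_iff.1 this
    have hq : ∀ a, |K a j / K i j| ≤ 1 := fun a => by
      rw [abs_div]
      exact div_le_one_of_le₀ (hmax (a, j)) (abs_nonneg _)
    obtain ⟨U, W, h1, h2, h3⟩ := ih (piv K i j) (2 * c) (by have := rank_piv hij; omega)
      (by positivity) (fun a b => by
        simp only [piv, Matrix.of_apply]
        have e1 := abs_sub (K a b) (K a j / K i j * K i b)
        rw [abs_mul] at e1
        have e2 := mul_le_mul (hq a) (hb i b) (abs_nonneg _) zero_le_one
        linarith [hb a b])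
    refine ⟨_, _, piv_fact h1, fun a k => ?_, fun k b => ?_⟩
    · refine Fin.cases ?_ (fun k => ?_) k
      · exact hq a
      · exact h2 a k
    · refine Fin.cases ?_ (fun k => ?_) k
      · have : (1 : ℝ) ≤ 2 ^ (r + 1) := one_le_pow₀ (by norm_num)
        exact (hb i b).trans (le_mul_of_one_le_left hc this)
      · have := h3 k b
        rw [pow_succ, mul_assoc]
        exact this

theorem exists_base [Fintype m] [Fintype n] (r : ℕ) : ∀ (M : Matrix m n ℝ), M.rank ≤ r →
    ∃ (A0 : Matrix m (Fin r) ℝ) (B0 : Matrix (Fin r) n ℝ), A0 * B0 = M ∧ ∀ ε : ℝ, 0 < ε →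
      ∀ᶠ N in 𝓝 M, N.rank ≤ r → ∃ (A : Matrix m (Fin r) ℝ) (B : Matrix (Fin r) n ℝ),
        A * B = N ∧ (∀ i k, |A i k - A0 i k| < ε) ∧ ∀ k j, |B k j - B0 k j| < ε := by
  have zero_case : ∀ r : ℕ, ∀ ε : ℝ, 0 < ε →
      ∀ᶠ N in 𝓝 (0 : Matrix m n ℝ), N.rank ≤ r →
        ∃ (A : Matrix m (Fin r) ℝ) (B : Matrix (Fin r) n ℝ),
        A * B = N ∧ (∀ i k, |A i k - (0 : Matrix m (Fin r) ℝ) i k| < ε) ∧
          ∀ k j, |B k j - (0 : Matrix (Fin r) n ℝ) k j| < ε := by
    intro r ε hε
    have hc : 0 < ε ^ 2 / (4 * 2 ^ r) := by positivity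
    have : ∀ᶠ N in 𝓝 (0 : Matrix m n ℝ), ∀ i j, |N i j| ≤ ε ^ 2 / (4 * 2 ^ r) := by
      refine eventually_all.2 fun i => eventually_all.2 fun j => ?_
      have hcont : Continuous fun N : Matrix m n ℝ => |N i j| := (continuous_apply_apply i j).abs
      exact (hcont.continuousAt.eventually_lt continuousAt_const (by simpa using hc)).mono
        fun _ h => h.le
    filter_upwards [this] with N hN hr
    obtain ⟨U, W, h1, h2, h3⟩ := small_fact r N _ hr hc.le hN
    refine ⟨(ε / 2) • U, (2 / ε) • W, ?_, fun i k => ?_, fun k j => ?_⟩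
    · rw [Matrix.smul_mul, Matrix.mul_smul, smul_smul, h1]
      have : ε / 2 * (2 / ε) = 1 := by field_simp
      rw [this, one_smul]
    · simp only [Matrix.smul_apply, smul_eq_mul, Matrix.zero_apply, sub_zero, abs_mul]
      rw [abs_of_pos (by positivity : 0 < ε / 2)]
      nlinarith [h2 i k]
    · simp only [Matrix.smul_apply, smul_eq_mul, Matrix.zero_apply, sub_zero, abs_mul]
      rw [abs_of_pos (by positivity : 0 < 2 / ε)]
      have e1 : 2 / ε * |W k j| ≤ 2 / ε * (2 ^ r * (ε ^ 2 / (4 * 2 ^ r))) :=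
        mul_le_mul_of_nonneg_left (h3 k j) (by positivity)
      have e2 : 2 / ε * (2 ^ r * (ε ^ 2 / (4 * 2 ^ r))) = ε / 2 := by field_simp; ring
      linarith
  induction r with
  | zero =>
    intro M hM
    have : M = 0 := by
      ext i j
      by_contra h
      have := rank_piv (N := M) h
      omega
    subst this
    exact ⟨0, 0, by simp, zero_case 0⟩
  | succ r ih =>
    intro M hM
    by_cases h0 : M = 0
    · subst h0
      exact ⟨0, 0, by simp, zero_case _⟩
    obtain ⟨i, j, hij⟩ : ∃ i j, M i j ≠ 0 := by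
      by_contra h
      push Not at h
      exact h0 (Matrix.ext h)
    obtain ⟨U0, W0, h1, h2⟩ := ih (piv M i j) (by have := rank_piv hij; omega)
    refine ⟨_, _, piv_fact h1, fun ε hε => ?_⟩
    have hq : ∀ a, ContinuousAt (fun N : Matrix m n ℝ => N a j / N i j) M := fun a =>
      (continuous_apply_apply a j).continuousAt.div (continuous_apply_apply i j).continuousAt hij
    have hp : ContinuousAt (fun N : Matrix m n ℝ => piv N i j) M :=
      continuousAt_pi.2 fun a => continuousAt_pi.2 fun b =>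
        (continuous_apply_apply a b).continuousAt.sub
          ((hq a).mul (continuous_apply_apply i b).continuousAt)
    have e1 := hp.eventually (h2 ε hε)
    have e2 : ∀ᶠ N in 𝓝 M, N i j ≠ 0 := (continuous_apply_apply i j).continuousAt.eventually_ne hij
    have e3 : ∀ᶠ N in 𝓝 M, ∀ a, |N a j / N i j - M a j / M i j| < ε :=
      eventually_all.2 fun a => (Metric.tendsto_nhds.1 (hq a) ε hε)
    have e4 : ∀ᶠ N in 𝓝 M, ∀ b, |N i b - M i b| < ε :=
      eventually_all.2 fun b =>
        (Metric.tendsto_nhds.1 ((continuous_apply_apply i b).continuousAt (x := M)) ε hε)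
    filter_upwards [e1, e2, e3, e4] with N h3 h4 h5 h6 hr
    obtain ⟨U, W, h7, h8, h9⟩ := h3 (by have := rank_piv h4; omega)
    refine ⟨_, _, piv_fact h7, fun a k => ?_, fun k b => ?_⟩
    · refine Fin.cases ?_ (fun k => ?_) k
      · exact h5 a
      · exact h8 a k
    · refine Fin.cases ?_ (fun k => ?_) k
      · exact h6 b
      · exact h9 k b

/-- left factor -/
def matA {r : Type} (x : (m × r) ⊕ (r × n) → ℝ) : Matrix m r ℝ :=
  Matrix.of fun i k => x (Sum.inl (i, k))

/-- right factor -/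
def matB {r : Type} (x : (m × r) ⊕ (r × n) → ℝ) : Matrix r n ℝ :=
  Matrix.of fun k j => x (Sum.inr (k, j))

theorem matA_coords {r : Type} (A : Matrix m r ℝ) (B : Matrix r n ℝ) : matA (coords A B) = A := rfl

theorem matB_coords {r : Type} (A : Matrix m r ℝ) (B : Matrix r n ℝ) : matB (coords A B) = B := rfl

theorem continuous_matA {r : Type} : Continuous (matA : ((m × r) ⊕ (r × n) → ℝ) → _) :=
  continuous_pi fun _ => continuous_pi fun _ => continuous_apply _

theorem continuous_matB {r : Type} : Continuous (matB : ((m × r) ⊕ (r × n) → ℝ) → _) :=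
  continuous_pi fun _ => continuous_pi fun _ => continuous_apply _

/-- pairs whose product has a nonnegative factorization -/
def NE (m n : Type) (r : ℕ) : Set ((m × Fin r) ⊕ (Fin r × n) → ℝ) :=
  {x | matA x * matB x ∈ NF m n r}

theorem int_of_pos [Fintype m] [Fintype n] {r : ℕ} {x : (m × Fin r) ⊕ (Fin r × n) → ℝ}
    {g g' : Matrix (Fin r) (Fin r) ℝ} (hg : g * g' = 1) (hA : ∀ i k, 0 < (matA x * g) i k)
    (hB : ∀ k j, 0 < (g' * matB x) k j) : x ∈ interior (NE m n r) := by
  rw [mem_interior_iff_mem_nhds]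
  have e1 : ∀ᶠ y in 𝓝 x, ∀ i k, 0 < (matA y * g) i k :=
    eventually_all.2 fun i => eventually_all.2 fun k =>
      continuousAt_const.eventually_lt
        ((continuous_matA.matrix_mul continuous_const).matrix_elem i k).continuousAt (hA i k)
  have e2 : ∀ᶠ y in 𝓝 x, ∀ k j, 0 < (g' * matB y) k j :=
    eventually_all.2 fun k => eventually_all.2 fun j =>
      continuousAt_const.eventually_lt
        ((continuous_const.matrix_mul continuous_matB).matrix_elem k j).continuousAt (hB k j)
  filter_upwards [e1, e2] with y h1 h2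
  refine ⟨matA y * g, g' * matB y, fun i k => (h1 i k).le, fun k j => (h2 k j).le, ?_⟩
  rw [Matrix.mul_assoc, ← Matrix.mul_assoc g, hg, Matrix.one_mul]

theorem int_of_dir [Fintype m] [Fintype n] {r : ℕ} {x : (m × Fin r) ⊕ (Fin r × n) → ℝ}
    {g g' : Matrix (Fin r) (Fin r) ℝ} (hg : g * g' = 1) (hA : ∀ i k, 0 ≤ (matA x * g) i k)
    (hB : ∀ k j, 0 ≤ (g' * matB x) k j) (D : Matrix (Fin r) (Fin r) ℝ)
    (hDA : ∀ i k, (matA x * g) i k = 0 → 0 < (matA x * g * D) i k)
    (hDB : ∀ k j, (g' * matB x) k j = 0 → (D * (g' * matB x)) k j < 0) :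
    x ∈ interior (NE m n r) := by
  set A := matA x * g with hAdef
  set B := g' * matB x with hBdef
  have hh : Continuous fun t : ℝ => (1 : Matrix (Fin r) (Fin r) ℝ) + t • D :=
    continuous_const.add (continuous_id.smul continuous_const)
  have e0 : ∀ᶠ t in 𝓝[>] (0 : ℝ), 0 < (1 + t • D).det :=
    nhdsWithin_le_nhds (continuousAt_const.eventually_lt hh.matrix_det.continuousAt (by simp))
  have e1 : ∀ᶠ t in 𝓝[>] (0 : ℝ), ∀ i k, 0 < (A * ((1 : Matrix (Fin r) (Fin r) ℝ) + t • D)) i k := by
    refine eventually_all.2 fun i => eventually_all.2 fun k => ?_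
    rcases (hA i k).eq_or_lt with h | h
    · filter_upwards [self_mem_nhdsWithin] with t ht
      rw [Matrix.mul_add, Matrix.mul_one, Matrix.mul_smul, Matrix.add_apply, ← h, zero_add,
        Matrix.smul_apply, smul_eq_mul]
      exact mul_pos ht (hDA i k h.symm)
    · exact nhdsWithin_le_nhds (continuousAt_const.eventually_lt
        ((continuous_const.matrix_mul hh).matrix_elem i k).continuousAt (by simpa using h))
  have e2 : ∀ᶠ t in 𝓝[>] (0 : ℝ), ∀ k j, 0 < ((1 + t • D).adjugate * B) k j := by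
    refine eventually_all.2 fun k => eventually_all.2 fun j => ?_
    rcases (hB k j).eq_or_lt with h | h
    · have e3 : ∀ᶠ t in 𝓝[>] (0 : ℝ), ((1 + t • D).adjugate * (D * B)) k j < 0 :=
        nhdsWithin_le_nhds
          (((hh.matrix_adjugate.matrix_mul continuous_const).matrix_elem k j).continuousAt.eventually_lt
            continuousAt_const (by simpa using hDB k j h.symm))
      filter_upwards [self_mem_nhdsWithin, e3] with t ht h3
      have h4 : (1 + t • D).adjugate * B =
          (1 + t • D).det • B - t • ((1 + t • D).adjugate * (D * B)) := by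
        have h5 := congrArg (· * B) (Matrix.adjugate_mul (1 + t • D))
        simp only [Matrix.smul_mul, Matrix.one_mul] at h5
        rw [← h5, Matrix.mul_assoc, Matrix.add_mul, Matrix.one_mul, Matrix.smul_mul,
          Matrix.mul_add, Matrix.mul_smul, add_sub_cancel_right]
      rw [h4, Matrix.sub_apply, Matrix.smul_apply, Matrix.smul_apply, ← h, smul_eq_mul,
        smul_eq_mul, mul_zero, zero_sub, neg_pos]
      exact mul_neg_of_pos_of_neg ht h3
    · exact nhdsWithin_le_nhds (continuousAt_const.eventually_lt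
        ((hh.matrix_adjugate.matrix_mul continuous_const).matrix_elem k j).continuousAt
          (by simpa using h))
  obtain ⟨t, h0, h1, h2⟩ := (e0.and (e1.and e2)).exists
  refine int_of_pos (g := g * (1 + t • D))
    (g' := ((1 + t • D).det)⁻¹ • ((1 + t • D).adjugate * g')) ?_ ?_ ?_
  · rw [Matrix.mul_smul, Matrix.mul_assoc, ← Matrix.mul_assoc (1 + t • D), Matrix.mul_adjugate,
      Matrix.smul_mul, Matrix.one_mul, Matrix.mul_smul, hg, smul_smul, inv_mul_cancel₀ h0.ne',
      one_smul]
  · intro i k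
    rw [← Matrix.mul_assoc]
    exact h1 i k
  · intro k j
    rw [Matrix.smul_mul, Matrix.mul_assoc, Matrix.smul_apply, smul_eq_mul]
    exact mul_pos (inv_pos.2 h0) (h2 k j)

theorem lin_alt {W ι : Type} [AddCommGroup W] [Module ℝ W] [FiniteDimensional ℝ W] [DecidableEq ι]
    (ℓ : ι → W →ₗ[ℝ] ℝ) (Z : Finset ι) :
    (∃ w, ∀ z ∈ Z, ℓ z w = 1) ∨ ∃ (s : Finset ι) (L : ι → ℝ), s ⊆ Z ∧
      s.card ≤ Module.finrank ℝ W + 1 ∧ L ≠ 0 ∧ (∀ z, z ∉ s → L z = 0) ∧
        ∀ w, ∑ z ∈ s, L z * ℓ z w = 0 := by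
  obtain ⟨s, hsZ, hs1, hs2⟩ : ∃ s : Finset ι, s ⊆ Z ∧ s.card ≤ Module.finrank ℝ W + 1 ∧
      (s = Z ∨ s.card = Module.finrank ℝ W + 1) := by
    by_cases h : Z.card ≤ Module.finrank ℝ W + 1
    · exact ⟨Z, subset_rfl, h, Or.inl rfl⟩
    · obtain ⟨s, h1, h2⟩ := Finset.exists_subset_card_eq (s := Z) (n := Module.finrank ℝ W + 1)
        (by omega)
      exact ⟨s, h1, h2.le, Or.inr h2⟩
  let T : W →ₗ[ℝ] (s → ℝ) := LinearMap.pi fun z => ℓ z
  by_cases hT : LinearMap.range T = ⊤
  · left
    have h1 : Module.finrank ℝ (LinearMap.range T) ≤ Module.finrank ℝ W :=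
      LinearMap.finrank_range_le T
    rw [hT, finrank_top, Module.finrank_fintype_fun_eq_card, Fintype.card_coe] at h1
    rcases hs2 with h | h
    · obtain ⟨w, hw⟩ := LinearMap.range_eq_top.1 hT (fun _ => 1)
      exact ⟨w, fun z hz => congrFun hw ⟨z, h ▸ hz⟩⟩
    · omega
  · right
    obtain ⟨f, hf, hker⟩ := Submodule.exists_le_ker_of_lt_top _ (lt_top_iff_ne_top.2 hT)
    refine ⟨s, fun z => if h : z ∈ s then f (Pi.single ⟨z, h⟩ 1) else 0, hsZ, hs1, ?_,
      fun z hz => dif_neg hz, fun w => ?_⟩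
    · intro h0
      apply hf
      apply LinearMap.pi_ext'
      intro z
      ext
      have := congrFun h0 z
      simpa [z.2] using this
    · have h1 : f (T w) = 0 := hker ⟨w, rfl⟩
      rw [LinearMap.pi_apply_eq_sum_univ] at h1
      rw [← h1, ← Finset.sum_coe_sort s]
      refine Finset.sum_congr rfl fun z _ => ?_
      simp only [z.2, dif_pos, T, LinearMap.pi_apply, smul_eq_mul, mul_comm]
      congr 2
      ext y
      simp [Pi.single_apply, eq_comm]

theorem crit_of_not_int [Fintype m] [Fintype n] {r : ℕ} {x : (m × Fin r) ⊕ (Fin r × n) → ℝ}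
    {L : Matrix (Fin r) m ℝ} {R : Matrix n (Fin r) ℝ} (hL : L * matA x = 1) (hR : matB x * R = 1)
    (hx : x ∈ NE m n r) (hnot : x ∉ interior (NE m n r)) :
    ∃ g g' LA LB, CritAt (matA x) (matB x) g g' LA LB ∧ ¬ (LA = 0 ∧ LB = 0) ∧
      ∃ s : Finset ((m × Fin r) ⊕ (Fin r × n)), s.card ≤ r * r + 1 ∧
        ∀ z, z ∉ s → coords LA LB z = 0 := by
  classical
  obtain ⟨A, B, hA, hB, hAB⟩ := hx
  have h1 : (L * A) * (B * R) = 1 := by
    rw [Matrix.mul_assoc, ← Matrix.mul_assoc A, ← hAB, Matrix.mul_assoc, hR, Matrix.mul_one, hL]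
  have h2 : (B * R) * (L * A) = 1 := mul_eq_one_comm.1 h1
  have h3 : matA x * (L * A) = A := by
    have : matA x = A * (B * R) := by
      rw [← Matrix.mul_assoc, ← hAB, Matrix.mul_assoc, hR, Matrix.mul_one]
    rw [this, Matrix.mul_assoc, h2, Matrix.mul_one]
  have h4 : (B * R) * matB x = B := by
    have : matB x = (L * A) * B := by
      rw [Matrix.mul_assoc, ← hAB, ← Matrix.mul_assoc, hL, Matrix.one_mul]
    rw [this, ← Matrix.mul_assoc, h2, Matrix.one_mul]
  let ℓ : (m × Fin r) ⊕ (Fin r × n) → Matrix (Fin r) (Fin r) ℝ →ₗ[ℝ] ℝ := fun z =>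
    { toFun := fun D => coords (A * D) (-(D * B)) z
      map_add' := fun D D' => by
        rcases z with z | z
        · simp [coords, Matrix.mul_add]
        · simp [coords, Matrix.add_mul, add_comm]
      map_smul' := fun c D => by
        rcases z with z | z <;> simp [coords] }
  rcases lin_alt ℓ (Finset.univ.filter fun z => coords A B z = 0) with ⟨D, hD⟩ | h
  · exfalso
    apply hnot
    refine int_of_dir h1 (by rwa [h3]) (by rwa [h4]) D ?_ ?_
    · intro i k h
      rw [h3] at h ⊢
      have : (A * D) i k = 1 := hD (Sum.inl (i, k)) (by simpa [coords] using h)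
      rw [this]; exact one_pos
    · intro k j h
      rw [h4] at h ⊢
      have : -(D * B) k j = 1 := hD (Sum.inr (k, j)) (by simpa [coords] using h)
      linarith
  · obtain ⟨s, Λ, hsZ, hs, hne, hsupp, hrel⟩ := h
    have hz : ∀ z, Λ z * coords A B z = 0 := by
      intro z
      by_cases hzs : z ∈ s
      · have := (Finset.mem_filter.1 (hsZ hzs)).2
        rw [this, mul_zero]
      · rw [hsupp z hzs, zero_mul]
    have hco : coords (matA Λ) (matB Λ) = Λ := by
      funext z; rcases z with z | z <;> rfl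
    refine ⟨L * A, B * R, matA Λ, matB Λ, ⟨h1, h2, fun i k => ?_, fun k j => ?_, ?_⟩, ?_, s, ?_,
      by rwa [hco]⟩
    · rw [h3]; exact hz (Sum.inl (i, k))
    · rw [h4]; exact hz (Sum.inr (k, j))
    · rw [h3, h4]
      ext k l
      have h5 := hrel (Matrix.single l k 1)
      rw [Finset.sum_subset (Finset.subset_univ s) (fun z _ hz => by rw [hsupp z hz, zero_mul]),
        Fintype.sum_sum_type, Fintype.sum_prod_type, Fintype.sum_prod_type] at h5
      have h6 : ∀ i, ∑ k', Λ (Sum.inl (i, k')) * ℓ (Sum.inl (i, k')) (Matrix.single l k 1) =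
          Λ (Sum.inl (i, k)) * A i l := by
        intro i
        rw [Finset.sum_eq_single k]
        · simp [ℓ, coords]
        · intro k' _ hk
          simp [ℓ, coords, hk]
        · simp
      have h7 : ∑ k', ∑ j, Λ (Sum.inr (k', j)) * ℓ (Sum.inr (k', j)) (Matrix.single l k 1) =
          - ∑ j, B k j * Λ (Sum.inr (l, j)) := by
        rw [Finset.sum_eq_single l]
        · simp [ℓ, coords, mul_comm]
        · intro k' _ hk
          simp [ℓ, coords, hk]
        · simp
      simp only [h6, h7] at h5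
      simp only [Matrix.mul_apply, Matrix.transpose_apply, matA, matB, Matrix.of_apply]
      linarith
    · rintro ⟨z1, z2⟩
      apply hne
      rw [← hco, z1, z2]
      funext z; rcases z with z | z <;> rfl
    · simpa [Module.finrank_matrix] using hs

theorem crit_restrict [Fintype m] [Fintype n] {r a b : Type} [Fintype r] [DecidableEq r]
    [Fintype a] [Fintype b] {A : Matrix m r ℝ} {B : Matrix r n ℝ} {g g' : Matrix r r ℝ}
    {LA : Matrix m r ℝ} {LB : Matrix r n ℝ} (h : CritAt A B g g' LA LB) (hne : ¬ (LA = 0 ∧ LB = 0))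
    {ρ : a → m} {κ : b → n} (hρ : Function.Injective ρ) (hκ : Function.Injective κ)
    (h1 : ∀ i k, i ∉ Set.range ρ → LA i k = 0) (h2 : ∀ k j, j ∉ Set.range κ → LB k j = 0) :
    Crit (A.submatrix ρ id) (B.submatrix id κ) := by
  refine ⟨g, g', LA.submatrix ρ id, LB.submatrix id κ,
    ⟨h.1, h.2.1, fun i k => h.2.2.1 (ρ i) k, fun k j => h.2.2.2.1 k (κ j), ?_⟩, ?_⟩
  · ext k l
    have h3 := congrFun (congrFun h.2.2.2.2 k) l
    rw [Matrix.mul_apply, Matrix.mul_apply (N := LBᵀ)] at h3
    rw [Matrix.mul_apply, Matrix.mul_apply (N := (LB.submatrix id κ)ᵀ)]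
    exact (Fintype.sum_of_injective ρ hρ _ (fun i => LAᵀ k i * (A * g) i l)
        (fun i hi => by simp [h1 i k hi]) (fun i => rfl)).trans (h3.trans
      (Fintype.sum_of_injective κ hκ _ (fun j => (g' * B) k j * LBᵀ j l)
        (fun j hj => by simp [h2 l j hj]) (fun j => rfl)).symm)
  · rintro ⟨z1, z2⟩
    apply hne
    constructor
    · ext i k
      by_cases hi : i ∈ Set.range ρ
      · obtain ⟨i, rfl⟩ := hi
        exact congrFun (congrFun z1 i) k
      · exact h1 i k hi
    · ext k j
      by_cases hj : j ∈ Set.range κ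
      · obtain ⟨j, rfl⟩ := hj
        exact congrFun (congrFun z2 k) j
      · exact h2 k j hj

end Pool.Agent.H769Z.NR
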