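import Mathlib

/-! Thin subsets of a real affine space do not separate boxes. -/

set_option autoImplicit false

namespace Pool.Agent.H769Z.NR

open MvPolynomial Topology

variable {σ : Type}

/-- generic coordinate lines miss `W` -/
def Thin [DecidableEq σ] (W : Set (σ → ℝ)) : Prop :=
  ∀ k : σ, ∃ h : MvPolynomial σ ℝ, h ≠ 0 ∧
    ∀ x, eval x h ≠ 0 → ∀ t, Function.update x k t ∉ W

theorem Thin.mono [DecidableEq σ] {W W' : Set (σ → ℝ)} (h : Thin W) (hs : W' ⊆ W) : Thin W' := by
  intro k
  obtain ⟨p, hp, h2⟩ := h k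
  exact ⟨p, hp, fun x hx t ht => h2 x hx t (hs ht)⟩

theorem thin_empty [DecidableEq σ] : Thin (∅ : Set (σ → ℝ)) :=
  fun _ => ⟨1, one_ne_zero, fun _ _ _ h => h⟩

theorem Thin.union [DecidableEq σ] {W W' : Set (σ → ℝ)} (h : Thin W) (h' : Thin W') :
    Thin (W ∪ W') := by
  intro k
  obtain ⟨p, hp, h2⟩ := h k
  obtain ⟨q, hq, h3⟩ := h' k
  refine ⟨p * q, mul_ne_zero hp hq, fun x hx t ht => ?_⟩
  rw [map_mul] at hx
  rcases ht with ht | ht
  · exact h2 x (left_ne_zero_of_mul hx) t ht
  · exact h3 x (right_ne_zero_of_mul hx) t ht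

theorem thin_biUnion [DecidableEq σ] {ι : Type} {s : Set ι} (hs : s.Finite)
    {W : ι → Set (σ → ℝ)} (h : ∀ i ∈ s, Thin (W i)) : Thin (⋃ i ∈ s, W i) := by
  induction s, hs using Set.Finite.induction_on with
  | empty => simpa using thin_empty
  | insert _ _ ih =>
    rw [Set.biUnion_insert]
    exact (h _ (Set.mem_insert _ _)).union (ih fun i hi => h i (Set.mem_insert_of_mem _ hi))

theorem exists_ne_zero_of_open [Fintype σ] {p : MvPolynomial σ ℝ} (hp : p ≠ 0)
    {O : Set (σ → ℝ)} (hO : IsOpen O) {x : σ → ℝ} (hx : x ∈ O) : ∃ y ∈ O, eval y p ≠ 0 := by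
  by_contra hcon
  push Not at hcon
  obtain ⟨ε, hε, hb⟩ := Metric.isOpen_iff.1 hO x hx
  apply hp
  refine funext_set (fun i => Metric.ball (x i) ε) (fun i => ?_) fun y hy => ?_
  · rw [Real.ball_eq_Ioo]
    exact Set.Ioo_infinite (by linarith)
  · rw [map_zero]
    apply hcon
    apply hb
    rw [ball_pi _ hε]
    exact hy

theorem update_mem_ball [Fintype σ] [DecidableEq σ] {e x : σ → ℝ} {ε : ℝ} (hε : 0 < ε)
    (hx : x ∈ Metric.ball e ε) (k : σ) {t : ℝ} (ht : t ∈ Metric.ball (e k) ε) :
    Function.update x k t ∈ Metric.ball e ε := by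
  rw [ball_pi _ hε] at hx ⊢
  intro i _
  by_cases h : i = k
  · subst h; simpa using ht
  · rw [Function.update_of_ne h]; exact hx i (Set.mem_univ _)

theorem exists_frontier [Fintype σ] [DecidableEq σ] {W N : Set (σ → ℝ)} (hW : Thin W)
    (hN : IsClosed N) {e : σ → ℝ} {ε : ℝ} {p q : σ → ℝ} (hp : p ∈ Metric.ball e ε)
    (hq : q ∈ Metric.ball e ε) (hpN : p ∈ interior N) (hqN : q ∉ N) :
    ∃ x ∈ Metric.ball e ε, x ∈ frontier N ∧ x ∉ W := by
  have hε : 0 < ε := Metric.pos_of_mem_ball hp
  by_contra hcon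
  push Not at hcon
  set I : Set (σ → ℝ) := interior N ∩ Metric.ball e ε with hI
  have hIo : IsOpen I := isOpen_interior.inter Metric.isOpen_ball
  have step : ∀ (k : σ) (x : σ → ℝ), x ∈ closure I → ∀ t ∈ Metric.ball (e k) ε,
      Function.update x k t ∈ closure I := by
    intro k x hx t ht
    obtain ⟨h, hh, hline⟩ := hW k
    have key : ∀ y ∈ I, eval y h ≠ 0 → Function.update y k t ∈ I := by
      intro y hy hyh
      refine ⟨?_, update_mem_ball hε hy.2 k ht⟩
      have hc : Continuous fun s : ℝ => Function.update y k s := continuous_const.update k continuous_id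
      have hpre : IsPreconnected ((fun s : ℝ => Function.update y k s) '' Metric.ball (e k) ε) :=
        (convex_ball _ _).isPreconnected.image _ hc.continuousOn
      have hyk : y k ∈ Metric.ball (e k) ε := by
        have := hy.2
        rw [ball_pi _ hε] at this
        exact this k (Set.mem_univ _)
      have hsub := hpre.subset_left_of_subset_union (u := interior N) (v := Nᶜ) isOpen_interior
        hN.isOpen_compl (Set.disjoint_left.2 fun a ha hb => hb (interior_subset ha)) (by
          rintro _ ⟨s, hs, rfl⟩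
          by_cases h1 : Function.update y k s ∈ N
          · left
            by_contra h2
            refine hline y hyh s (hcon _ (update_mem_ball hε hy.2 k hs) ?_)
            rw [hN.frontier_eq]
            exact ⟨h1, h2⟩
          · right; exact h1)
        (Set.nonempty_of_mem (x := y)
          (Set.mem_inter ((Set.mem_image _ _ _).2 ⟨y k, hyk, by simp⟩) hy.1))
      exact hsub (Set.mem_image_of_mem _ ht)
    have hc : Continuous fun y : σ → ℝ => Function.update y k t := continuous_id.update k continuous_const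
    have hx' : x ∈ closure {y | y ∈ I ∧ eval y h ≠ 0} := by
      rw [mem_closure_iff] at hx ⊢
      intro O hO hxO
      obtain ⟨y, hy⟩ := hx O hO hxO
      obtain ⟨z, hz, hz'⟩ := exists_ne_zero_of_open hh (hO.inter hIo) hy
      exact ⟨z, hz.1, hz.2, hz'⟩
    exact map_mem_closure (f := fun y : σ → ℝ => Function.update y k t) hc hx'
      fun y hy => key y hy.1 hy.2
  have all : ∀ s : Finset σ, s.piecewise q p ∈ closure I := by
    intro s
    induction s using Finset.induction_on with
    | empty => simpa using subset_closure (show p ∈ I from ⟨hpN, hp⟩)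
    | insert a s _ ih =>
      rw [Finset.piecewise_insert]
      apply step a _ ih
      rw [ball_pi _ hε] at hq
      exact hq a (Set.mem_univ _)
  have := all Finset.univ
  rw [Finset.piecewise_univ] at this
  exact hqN (closure_minimal (fun a ha => interior_subset ha.1) hN this)

theorem exists_elim {R : Type} [CommRing R] [IsDomain R] {f g : Polynomial R} (hf : Prime f)
    (hg : ¬ f ∣ g) : ∃ h : R, h ≠ 0 ∧ ∃ u v : Polynomial R, Polynomial.C h = u * f + v * g := by
  have : IsDomain (AdjoinRoot f) := AdjoinRoot.isDomain_of_prime hf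
  have hg' : AdjoinRoot.mk f g ≠ 0 := by rwa [Ne, AdjoinRoot.mk_eq_zero]
  have halg : IsAlgebraic R (AdjoinRoot.mk f g) := by
    rw [← AdjoinRoot.aeval_eq]
    have hr : IsAlgebraic R (AdjoinRoot.root f) := AdjoinRoot.isAlgebraic_root hf.ne_zero
    have : Polynomial.aeval (AdjoinRoot.root f) g ∈ Subalgebra.algebraicClosure R (AdjoinRoot f) := by
      have h1 : Algebra.adjoin R {AdjoinRoot.root f} ≤ Subalgebra.algebraicClosure R (AdjoinRoot f) :=
        Algebra.adjoin_le (Set.singleton_subset_iff.2 hr)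
      exact h1 (Polynomial.aeval_mem_adjoin_singleton R _)
    exact this
  have h2 := Ideal.comap_ne_bot_of_algebraic_mem (R := R) (I := Ideal.span {AdjoinRoot.mk f g}) hg'
    (Ideal.mem_span_singleton_self _) halg
  obtain ⟨h, hh, hne⟩ := (Submodule.ne_bot_iff _).1 h2
  refine ⟨h, hne, ?_⟩
  rw [Ideal.mem_comap, Ideal.mem_span_singleton'] at hh
  obtain ⟨a, ha⟩ := hh
  obtain ⟨v, rfl⟩ := AdjoinRoot.mk_surjective a
  rw [AdjoinRoot.algebraMap_eq, ← AdjoinRoot.mk_C, ← map_mul, AdjoinRoot.mk_eq_mk] at ha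
  obtain ⟨u, hu⟩ := ha
  exact ⟨-u, v, by linear_combination -hu⟩

theorem thin_pair [DecidableEq σ] {f g : MvPolynomial σ ℝ} (hf : Prime f) (hg : ¬ f ∣ g) :
    Thin {x | eval x f = 0 ∧ eval x g = 0} := by
  intro k
  let E : MvPolynomial σ ℝ ≃ₐ[ℝ] Polynomial (MvPolynomial {j // j ≠ k} ℝ) :=
    (renameEquiv ℝ (Equiv.optionSubtypeNe k).symm).trans (optionEquivLeft ℝ _)
  have hf' : Prime (E f) := (MulEquiv.prime_iff E).2 hf
  have hg' : ¬ E f ∣ E g := by rwa [map_dvd_iff]
  obtain ⟨h, hne, u, v, huv⟩ := exists_elim hf' hg'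
  have hE : E (rename Subtype.val h) = Polynomial.C h := by
    have : (E : MvPolynomial σ ℝ →ₐ[ℝ] _).comp (rename (Subtype.val : {j // j ≠ k} → σ)) =
        Polynomial.CAlgHom := by
      apply MvPolynomial.algHom_ext
      intro j
      simp [E, Equiv.optionSubtypeNe_symm_of_ne j.2]
    exact congrArg (fun F => F h) this
  have hrel : rename Subtype.val h = E.symm u * f + E.symm v * g := by
    apply E.injective
    rw [hE, huv]
    simp
  refine ⟨rename Subtype.val h, ?_, fun x hx t ht => hx ?_⟩
  · intro h0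
    exact hne (rename_injective _ Subtype.val_injective (by rw [h0, map_zero]))
  · have e1 : eval (Function.update x k t) (rename (Subtype.val : {j // j ≠ k} → σ) h) =
        eval x (rename Subtype.val h) := by
      rw [eval_rename, eval_rename]
      congr 2
      funext j
      simp [Function.update_of_ne j.2]
    rw [← e1, hrel, map_add, map_mul, map_mul, ht.1, ht.2]
    simp

theorem prime_rename {τ : Type} {f : τ → σ} (hf : Function.Injective f) {p : MvPolynomial τ ℝ}
    (hp : Prime p) : Prime (rename f p) := by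
  have h1 : Prime (renameEquiv ℝ (Equiv.ofInjective f hf) p) := (MulEquiv.prime_iff _).2 hp
  have h2 := (prime_rename_iff (Set.range f)).2 h1
  rwa [renameEquiv_apply, rename_rename] at h2

end Pool.Agent.H769Z.NR
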