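import Pool.Agent.H769Z.NR.Local
import Pool.Agent.H769Z.NR.Thin

/-! Column stabilization of the algebraic boundary. -/

set_option autoImplicit false

namespace Pool.Agent.H769Z.NR

open MvPolynomial Topology Matrix Filter

variable {m n : Type}

/-- a maximal minor of the left factor, as a polynomial -/
noncomputable def minorA (n : Type) {r : ℕ} (φ : Fin r → m) :
    MvPolynomial ((m × Fin r) ⊕ (Fin r × n)) ℝ :=
  (Matrix.of fun k l => X (Sum.inl (φ k, l)) : Matrix (Fin r) (Fin r) _).det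

/-- a maximal minor of the right factor, as a polynomial -/
noncomputable def minorB (m : Type) {r : ℕ} (φ : Fin r → n) :
    MvPolynomial ((m × Fin r) ⊕ (Fin r × n)) ℝ :=
  (Matrix.of fun k l => X (Sum.inr (k, φ l)) : Matrix (Fin r) (Fin r) _).det

theorem eval_minorA {r : ℕ} (φ : Fin r → m) (x : (m × Fin r) ⊕ (Fin r × n) → ℝ) :
    eval x (minorA n φ) = ((matA x).submatrix φ id).det := by
  rw [minorA, RingHom.map_det]
  congr 1
  ext k l
  simp [matA]

theorem eval_minorB {r : ℕ} (φ : Fin r → n) (x : (m × Fin r) ⊕ (Fin r × n) → ℝ) :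
    eval x (minorB m φ) = ((matB x).submatrix id φ).det := by
  rw [minorB, RingHom.map_det]
  congr 1
  ext k l
  simp [matB]

theorem minorA_ne {r : ℕ} {φ : Fin r → m} (hφ : Function.Injective φ) : minorA n φ ≠ 0 := by
  classical
  intro h
  have := eval_minorA (n := n) φ (coords (sel φ)ᵀ 0)
  rw [h, map_zero, matA_coords, ← Matrix.det_transpose, Matrix.transpose_submatrix,
    Matrix.transpose_transpose, sel_sub hφ, det_one] at this
  exact zero_ne_one this

theorem minorB_ne {r : ℕ} {φ : Fin r → n} (hφ : Function.Injective φ) : minorB m φ ≠ 0 := by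
  classical
  intro h
  have := eval_minorB (m := m) φ (coords 0 (sel φ))
  rw [h, map_zero, matB_coords, sel_sub hφ, det_one] at this
  exact zero_ne_one this

theorem left_inv_of_minor [Fintype m] {r : ℕ} {φ : Fin r → m} {A : Matrix m (Fin r) ℝ}
    (h : (A.submatrix φ id).det ≠ 0) : ∃ L : Matrix (Fin r) m ℝ, L * A = 1 := by
  classical
  exact ⟨(A.submatrix φ id)⁻¹ * sel φ, by
    rw [Matrix.mul_assoc, sel_mul, Matrix.nonsing_inv_mul _ (isUnit_iff_ne_zero.2 h)]⟩

theorem right_inv_of_minor [Fintype n] {r : ℕ} {φ : Fin r → n} {B : Matrix (Fin r) n ℝ}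
    (h : (B.submatrix id φ).det ≠ 0) : ∃ R : Matrix n (Fin r) ℝ, B * R = 1 := by
  classical
  exact ⟨(sel φ)ᵀ * (B.submatrix id φ)⁻¹, by
    rw [← Matrix.mul_assoc, mul_selT, Matrix.mul_nonsing_inv _ (isUnit_iff_ne_zero.2 h)]⟩

theorem exists_avoid [Fintype m] {r : ℕ} (s : Finset m) (h : s.card + r ≤ Fintype.card m) :
    ∃ φ : Fin r → m, Function.Injective φ ∧ ∀ k, φ k ∉ s := by
  classical
  have h1 : Fintype.card (Fin r) ≤ (sᶜ).card := by
    rw [Finset.card_compl, Fintype.card_fin]; omega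
  obtain ⟨f, hf⟩ := Function.Embedding.exists_of_card_le_finset h1
  exact ⟨f, f.injective, fun k => by simpa using hf ⟨k, rfl⟩⟩

theorem thin_A [Fintype m] [Fintype n] [DecidableEq m] [DecidableEq n] {r : ℕ}
    (hm : r < Fintype.card m) :
    Thin {x : (m × Fin r) ⊕ (Fin r × n) → ℝ | ¬ ∃ L : Matrix (Fin r) m ℝ, L * matA x = 1} := by
  intro k
  obtain ⟨φ, hφ, hk⟩ : ∃ φ : Fin r → m, Function.Injective φ ∧
      ∀ i l, k ≠ Sum.inl (φ i, l) := by
    rcases k with k | k
    · obtain ⟨φ, h1, h2⟩ := exists_avoid (r := r) {k.1} (by simp; omega)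
      refine ⟨φ, h1, fun i l h => h2 i ?_⟩
      simp [Sum.inl.inj h]
    · obtain ⟨φ, h1, -⟩ := exists_avoid (m := m) (r := r) ∅ (by simp; omega)
      exact ⟨φ, h1, fun i l h => by cases h⟩
  refine ⟨minorA n φ, minorA_ne hφ, fun x hx t ht => ht (left_inv_of_minor (φ := φ) ?_)⟩
  rw [eval_minorA] at hx
  convert hx using 2
  ext i l
  simp [matA, Function.update_of_ne (hk i l).symm]

theorem thin_B [Fintype m] [Fintype n] [DecidableEq m] [DecidableEq n] {r : ℕ}
    (hn : r < Fintype.card n) :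
    Thin {x : (m × Fin r) ⊕ (Fin r × n) → ℝ | ¬ ∃ R : Matrix n (Fin r) ℝ, matB x * R = 1} := by
  intro k
  obtain ⟨φ, hφ, hk⟩ : ∃ φ : Fin r → n, Function.Injective φ ∧
      ∀ i l, k ≠ Sum.inr (l, φ i) := by
    rcases k with k | k
    · obtain ⟨φ, h1, -⟩ := exists_avoid (m := n) (r := r) ∅ (by simp; omega)
      exact ⟨φ, h1, fun i l h => by cases h⟩
    · obtain ⟨φ, h1, h2⟩ := exists_avoid (r := r) {k.2} (by simp; omega)
      refine ⟨φ, h1, fun i l h => h2 i ?_⟩
      simp [Sum.inr.inj h]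
  refine ⟨minorB m φ, minorB_ne hφ, fun x hx t ht => ht (right_inv_of_minor (φ := φ) ?_)⟩
  rw [eval_minorB] at hx
  convert hx using 2
  ext i l
  simp [matB, Function.update_of_ne (hk l i).symm]

/-- an interior point close to the base factorization -/
theorem exists_int_near [Fintype m] [Fintype n] {r : ℕ} (hm : r < Fintype.card m)
    (hn : r < Fintype.card n) {M : Matrix m n ℝ} (hM : M ∈ NF m n r) {U : Set (Matrix m n ℝ)}
    (hU : U ∈ 𝓝 M) : ∃ P ∈ U, P ∈ rankLE m n r ∧
      ∀ x : (m × Fin r) ⊕ (Fin r × n) → ℝ, matA x * matB x = P → x ∈ interior (NE m n r) := by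
  classical
  obtain ⟨A, B, hA, hB, rfl⟩ := hM
  have hμ : Continuous fun x : (m × Fin r) ⊕ (Fin r × n) → ℝ => matA x * matB x :=
    continuous_matA.matrix_mul continuous_matB
  obtain ⟨φ, hφ, -⟩ := exists_avoid (m := m) (r := r) ∅ (by simp; omega)
  obtain ⟨ψ, hψ, -⟩ := exists_avoid (m := n) (r := r) ∅ (by simp; omega)
  let O : Set ((m × Fin r) ⊕ (Fin r × n) → ℝ) :=
    (fun x => matA x * matB x) ⁻¹' interior U ∩ ⋂ z, {x | 0 < x z}
  have hO : IsOpen O := (isOpen_interior.preimage hμ).inter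
    (isOpen_iInter_of_finite fun z => isOpen_lt continuous_const (continuous_apply z))
  obtain ⟨y, hy⟩ : O.Nonempty := by
    have hc : Continuous fun t : ℝ => (coords A B + fun _ => t) :=
      continuous_const.add (continuous_pi fun _ => continuous_id)
    have h0 : (coords A B + fun _ => (0 : ℝ)) = coords A B := by ext; simp
    have e1 : ∀ᶠ t in 𝓝[>] (0 : ℝ),
        matA (coords A B + fun _ => t) * matB (coords A B + fun _ => t) ∈ interior U :=
      nhdsWithin_le_nhds ((hμ.comp hc).continuousAt.eventually_mem (by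
        simp only [Function.comp, h0, matA_coords, matB_coords]
        exact interior_mem_nhds.2 hU))
    obtain ⟨t, h1, h2⟩ := (e1.and self_mem_nhdsWithin).exists
    refine ⟨_, h1, Set.mem_iInter.2 fun z => ?_⟩
    have h3 : 0 ≤ coords A B z := by
      rcases z with z | z
      · exact hA _ _
      · exact hB _ _
    exact add_pos_of_nonneg_of_pos h3 h2
  obtain ⟨w, hw, hne⟩ := exists_ne_zero_of_open (mul_ne_zero (minorA_ne hφ) (minorB_ne hψ)) hO hy
  rw [map_mul, eval_minorA, eval_minorB] at hne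
  obtain ⟨L, hL⟩ := left_inv_of_minor (left_ne_zero_of_mul hne)
  obtain ⟨R, hR⟩ := right_inv_of_minor (right_ne_zero_of_mul hne)
  refine ⟨matA w * matB w, interior_subset hw.1, mul_mem_rankLE _ _, fun x hx => ?_⟩
  have h1 : (L * matA x) * (matB x * R) = 1 := by
    rw [Matrix.mul_assoc, ← Matrix.mul_assoc (matA x), hx, Matrix.mul_assoc, hR, Matrix.mul_one, hL]
  refine int_of_pos (g := matB x * R) (g' := L * matA x) (mul_eq_one_comm.1 h1) ?_ ?_
  · intro i k
    rw [← Matrix.mul_assoc, hx, Matrix.mul_assoc, hR, Matrix.mul_one]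
    exact Set.mem_iInter.1 hw.2 (Sum.inl (i, k))
  · intro k j
    rw [Matrix.mul_assoc, hx, ← Matrix.mul_assoc, hL, Matrix.one_mul]
    exact Set.mem_iInter.1 hw.2 (Sum.inr (k, j))

theorem coords_mem_ball [Fintype m] [Fintype n] {r : ℕ} {A A0 : Matrix m (Fin r) ℝ}
    {B B0 : Matrix (Fin r) n ℝ} {ε : ℝ} (hε : 0 < ε) (hA : ∀ i k, |A i k - A0 i k| < ε)
    (hB : ∀ k j, |B k j - B0 k j| < ε) : coords A B ∈ Metric.ball (coords A0 B0) ε := by
  rw [ball_pi _ hε]
  rintro (z | z) -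
  · exact hA _ _
  · exact hB _ _

/-- every boundary point is a limit of products of frontier points outside a thin set -/
theorem approx [Fintype m] [Fintype n] [DecidableEq m] [DecidableEq n] {r : ℕ}
    (hm : r < Fintype.card m) (hn : r < Fintype.card n)
    {W : Set ((m × Fin r) ⊕ (Fin r × n) → ℝ)} (hW : Thin W) {M : Matrix m n ℝ}
    (hM : M ∈ topBoundary m n r) {U : Set (Matrix m n ℝ)} (hU : U ∈ 𝓝 M) :
    ∃ x, x ∈ frontier (NE m n r) ∧ x ∉ W ∧ matA x * matB x ∈ U := by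
  have hμ : Continuous fun x : (m × Fin r) ⊕ (Fin r × n) → ℝ => matA x * matB x :=
    continuous_matA.matrix_mul continuous_matB
  rw [mem_topBoundary] at hM
  obtain ⟨A0, B0, h0, hb⟩ := exists_base r M (NF_subset r hM.1)
  have h1 : (fun x => matA x * matB x) ⁻¹' U ∈ 𝓝 (coords A0 B0) :=
    hμ.continuousAt.preimage_mem_nhds (by
      simp only [matA_coords, matB_coords, h0]; exact hU)
  obtain ⟨ε, hε, hball⟩ := Metric.mem_nhds_iff.1 h1
  obtain ⟨P, hP1, hP2, hP3⟩ := exists_int_near hm hn hM.1 (hb ε hε)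
  obtain ⟨A1, B1, e1, a1, b1⟩ := hP1 hP2
  obtain ⟨Q, hQ1, hQ2⟩ := mem_closure_iff_nhds.1 hM.2 _ (hb ε hε)
  obtain ⟨A2, B2, e2, a2, b2⟩ := hQ1 hQ2.1
  obtain ⟨x, hx1, hx2, hx3⟩ := exists_frontier (N := NE m n r) hW ((isClosed_NF r).preimage hμ)
    (coords_mem_ball hε a1 b1) (coords_mem_ball hε a2 b2) (hP3 _ e1)
    (fun h => hQ2.2 (e2 ▸ h))
  exact ⟨x, hx2, hx3, hball hx1⟩

theorem bd_of_frontier [Fintype m] [Fintype n] {r : ℕ} {x : (m × Fin r) ⊕ (Fin r × n) → ℝ}
    (hx : x ∈ frontier (NE m n r)) : x ∈ NE m n r ∧ x ∉ interior (NE m n r) ∧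
      matA x * matB x ∈ topBoundary m n r := by
  have hμ : Continuous fun x : (m × Fin r) ⊕ (Fin r × n) → ℝ => matA x * matB x :=
    continuous_matA.matrix_mul continuous_matB
  have hc : IsClosed (NE m n r) := (isClosed_NF r).preimage hμ
  have h1 : x ∈ NE m n r := hc.frontier_subset hx
  refine ⟨h1, hx.2, mem_topBoundary.2 ⟨h1, ?_⟩⟩
  rw [frontier_eq_closure_inter_closure] at hx
  exact map_mem_closure (f := fun x => matA x * matB x) hμ hx.2
    fun y hy => ⟨mul_mem_rankLE _ _, hy⟩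

/-- the hypersurface `f = 0` in the rows `ρ` and columns `κ` lies over the set `T` -/
def Over [Fintype n] {r : ℕ} {a b : Type} (f : MvPolynomial ((a × Fin r) ⊕ (Fin r × b)) ℝ)
    (ρ : a → m) (κ : b → n) (T : Set (Matrix m n ℝ)) : Prop :=
  ∀ (A : Matrix m (Fin r) ℝ) (B : Matrix (Fin r) n ℝ),
    eval (coords (A.submatrix ρ id) (B.submatrix id κ)) f = 0 → A * B ∈ T

theorem main_local [Fintype m] [Fintype n] {r : ℕ} (hm : r < Fintype.card m)
    (hn : r < Fintype.card n) {a b : Type} [Fintype a] [Fintype b]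
    {D : MvPolynomial ((a × Fin r) ⊕ (Fin r × b)) ℝ} (hD0 : D ≠ 0)
    (hD : ∀ A B, Crit A B → eval (coords A B) D = 0)
    (F : Set ((a → m) × (b → n)))
    (hinj : ∀ p ∈ F, Function.Injective p.1 ∧ Function.Injective p.2)
    (hcov : ∀ (s : Finset m) (t : Finset n), s.card ≤ r * r + 1 → t.card ≤ r * r + 1 →
      ∃ p ∈ F, (∀ i ∈ s, i ∈ Set.range p.1) ∧ ∀ j ∈ t, j ∈ Set.range p.2)
    {T : Set (Matrix m n ℝ)} (hT : IsClosed T)
    (hgood : ∀ p ∈ F, ∀ f ∈ UniqueFactorizationMonoid.factors D,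
      Over f p.1 p.2 (algBoundary m n r) → Over f p.1 p.2 T) :
    topBoundary m n r ⊆ T := by
  classical
  intro M hM
  let bad : Set (((a → m) × (b → n)) × MvPolynomial ((a × Fin r) ⊕ (Fin r × b)) ℝ) :=
    {q | q.1 ∈ F ∧ q.2 ∈ UniqueFactorizationMonoid.factors D ∧
      ¬ Over q.2 q.1.1 q.1.2 (algBoundary m n r)}
  have hbad : bad.Finite :=
    ((Set.toFinite F).prod (UniqueFactorizationMonoid.factors D).finite_toSet).subset
      fun q hq => ⟨hq.1, hq.2.1⟩
  let W : ((a → m) × (b → n)) × MvPolynomial ((a × Fin r) ⊕ (Fin r × b)) ℝ →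
      Set ((m × Fin r) ⊕ (Fin r × n) → ℝ) := fun q =>
    {x | eval (coords ((matA x).submatrix q.1.1 id) ((matB x).submatrix id q.1.2)) q.2 = 0 ∧
      matA x * matB x ∈ topBoundary m n r}
  have hW : ∀ q ∈ bad, Thin (W q) := by
    rintro ⟨⟨ρ, κ⟩, f⟩ ⟨h1, h2, h3⟩
    simp only [Over, algBoundary, zariskiClosure, Set.mem_setOf_eq, not_forall] at h3
    obtain ⟨A, B, h4, g, h5, h6⟩ := h3
    let ι : (a × Fin r) ⊕ (Fin r × b) → (m × Fin r) ⊕ (Fin r × n) :=
      Sum.map (Prod.map ρ id) (Prod.map id κ)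
    have hι : Function.Injective ι :=
      ((hinj _ h1).1.prodMap Function.injective_id).sumMap
        (Function.injective_id.prodMap (hinj _ h1).2)
    have hf : Prime (rename ι f) :=
      prime_rename hι (UniqueFactorizationMonoid.prime_of_factor f h2)
    have ef : ∀ x, eval x (rename ι f) =
        eval (coords ((matA x).submatrix ρ id) ((matB x).submatrix id κ)) f := by
      intro x
      rw [eval_rename]
      congr 2
      funext z
      rcases z with z | z <;> rfl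
    let G : MvPolynomial ((m × Fin r) ⊕ (Fin r × n)) ℝ :=
      bind₁ (fun ij : m × n => ∑ k, X (Sum.inl (ij.1, k)) * X (Sum.inr (k, ij.2))) g
    have eG : ∀ x, eval x G = eval (fun ij => (matA x * matB x) ij.1 ij.2) g := by
      intro x
      simp only [G, ← coe_aeval_eq_eval, RingHom.coe_coe, aeval_bind₁]
      congr 2
      funext ij
      simp [Matrix.mul_apply, matA, matB]
    have hG : ¬ rename ι f ∣ G := by
      rintro ⟨u, hu⟩
      apply h6
      have := eG (coords A B)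
      rw [hu, map_mul, ef, matA_coords, matB_coords, h4, zero_mul] at this
      exact this.symm
    refine (thin_pair hf hG).mono fun x hx => ⟨?_, ?_⟩
    · rw [ef]; exact hx.1
    · rw [eG]; exact h5 _ hx.2
  have hthin := ((thin_A (n := n) hm).union (thin_B (m := m) hn)).union (thin_biUnion hbad hW)
  rw [← hT.closure_eq, mem_closure_iff_nhds]
  intro U hU
  obtain ⟨x, hx1, hx2, hx3⟩ := approx hm hn hthin hM hU
  refine ⟨_, hx3, ?_⟩
  obtain ⟨h1, h2, h3⟩ := bd_of_frontier hx1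
  simp only [Set.mem_union, Set.mem_setOf_eq, not_or, not_not] at hx2
  obtain ⟨⟨⟨L, hL⟩, R, hR⟩, h4⟩ := hx2
  simp only [Set.mem_iUnion, not_exists] at h4
  obtain ⟨g, g', LA, LB, h5, h6, s, hs, h7⟩ := crit_of_not_int hL hR h1 h2
  obtain ⟨p, hp, h8, h9⟩ := hcov (s.toLeft.image Prod.fst) (s.toRight.image Prod.snd)
    (Finset.card_image_le.trans (Finset.card_toLeft_le.trans hs))
    (Finset.card_image_le.trans (Finset.card_toRight_le.trans hs))
  have h10 := crit_restrict h5 h6 (hinj p hp).1 (hinj p hp).2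
    (fun i k hi => h7 (Sum.inl (i, k)) fun hz => hi (h8 i
      (Finset.mem_image.2 ⟨(i, k), Finset.mem_toLeft.2 hz, rfl⟩)))
    (fun k j hj => h7 (Sum.inr (k, j)) fun hz => hj (h9 j
      (Finset.mem_image.2 ⟨(k, j), Finset.mem_toRight.2 hz, rfl⟩)))
  have h11 := hD _ _ h10
  obtain ⟨u, hu⟩ := UniqueFactorizationMonoid.factors_prod hD0
  rw [← hu, map_mul, map_multiset_prod, mul_eq_zero, Multiset.prod_eq_zero_iff] at h11
  rcases h11 with h11 | h11
  · obtain ⟨f, hf, h12⟩ := Multiset.mem_map.1 h11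
    by_cases hO : Over f p.1 p.2 (algBoundary m n r)
    · exact hgood p hp f hf hO _ _ h12
    · exact (h4 (p, f) ⟨hp, hf, hO⟩ ⟨h12, h3⟩).elim
  · exact ((u.isUnit.map _).ne_zero h11).elim

theorem exists_ext {a : Type} [Finite a] {k l : ℕ} (h : k ≤ l) {ρ : a → Fin k} {ρ' : a → Fin l}
    (hρ : Function.Injective ρ) (hρ' : Function.Injective ρ') :
    ∃ e : Fin k → Fin l, Function.Injective e ∧ e ∘ ρ = ρ' := by
  obtain ⟨σ, hσ⟩ := Equiv.Perm.exists_extending_pair _ _ ((Fin.castLE_injective h).comp hρ) hρ'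
  exact ⟨σ ∘ Fin.castLE h, σ.injective.comp (Fin.castLE_injective h), funext hσ⟩

theorem over_col [Fintype m] {r : ℕ} {a : Type} {b k l : ℕ}
    {f : MvPolynomial ((a × Fin r) ⊕ (Fin r × Fin b)) ℝ} {ρ : a → m} {κ : Fin b → Fin k}
    {κ' : Fin b → Fin l} (hκ : Function.Injective κ) (hκ' : Function.Injective κ')
    (hk : b + r ≤ k) (hkl : k ≤ l) (h : Over f ρ κ (algBoundary m (Fin k) r)) :
    Over f ρ κ' (algBoundary m (Fin l) r) := by
  obtain ⟨e, he, rfl⟩ := exists_ext hkl hκ hκ'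
  obtain ⟨φ, hφ, hd⟩ := exists_avoid (r := r) (Finset.univ.image κ)
    (by have := Finset.card_image_le (s := Finset.univ) (f := κ); simp at this ⊢; omega)
  exact transfer_col (fun A Y => eval (coords (A.submatrix ρ id) Y) f = 0) κ he hφ
    (fun i j hij => hd i (by simp [hij])) h

theorem over_row [Fintype n] {r : ℕ} {b : Type} {a k l : ℕ}
    {f : MvPolynomial ((Fin a × Fin r) ⊕ (Fin r × b)) ℝ} {κ : b → n} {ρ : Fin a → Fin k}
    {ρ' : Fin a → Fin l} (hρ : Function.Injective ρ) (hρ' : Function.Injective ρ')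
    (hk : a + r ≤ k) (hkl : k ≤ l) (h : Over f ρ κ (algBoundary (Fin k) n r)) :
    Over f ρ' κ (algBoundary (Fin l) n r) := by
  obtain ⟨e, he, rfl⟩ := exists_ext hkl hρ hρ'
  obtain ⟨φ, hφ, hd⟩ := exists_avoid (r := r) (Finset.univ.image ρ)
    (by have := Finset.card_image_le (s := Finset.univ) (f := ρ); simp at this ⊢; omega)
  exact transfer_row (fun X B => eval (coords X (B.submatrix id κ)) f = 0) ρ he hφ
    (fun i j hij => hd i (by simp [hij])) h

/-- matrices with a column deletion on the algebraic boundary -/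
def Del (m : Type) (n r : ℕ) : Set (Matrix m (Fin (n + 1)) ℝ) :=
  {M | ∃ i : Fin (n + 1), M.submatrix id i.succAbove ∈ algBoundary m (Fin n) r}

theorem isClosed_Del (n r : ℕ) : IsClosed (Del m n r) := by
  have : Del m n r = ⋃ i : Fin (n + 1),
      (fun M => M.submatrix id i.succAbove) ⁻¹' algBoundary m (Fin n) r := by
    ext M; simp [Del]
  rw [this]
  exact isClosed_iUnion_of_finite fun i =>
    (isClosed_zar _).preimage (continuous_id.matrix_submatrix _ _)

theorem zar_Del {n r : ℕ} (h : topBoundary m (Fin (n + 1)) r ⊆ Del m n r) :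
    algBoundary m (Fin (n + 1)) r ⊆ Del m n r := by
  intro M hM
  by_contra hcon
  simp only [Del, algBoundary, zariskiClosure, Set.mem_setOf_eq, not_exists, not_forall] at hcon
  choose p hp1 hp2 using hcon
  have key : ∀ (N : Matrix m (Fin (n + 1)) ℝ), eval (fun ij => N ij.1 ij.2)
      (∏ i, rename (Prod.map id i.succAbove) (p i)) =
      ∏ i, eval (fun ij => (N.submatrix id i.succAbove) ij.1 ij.2) (p i) := by
    intro N
    rw [map_prod]
    refine Finset.prod_congr rfl fun i _ => ?_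
    rw [eval_rename]
    rfl
  have := hM (∏ i, rename (Prod.map id i.succAbove) (p i)) fun N hN => by
    obtain ⟨i, hi⟩ := h hN
    rw [key]
    exact Finset.prod_eq_zero (Finset.mem_univ i) (hi _ (hp1 i))
  rw [key, Finset.prod_eq_zero_iff] at this
  obtain ⟨i, -, hi⟩ := this
  exact hp2 i hi

theorem over_Del {r : ℕ} {a : Type} {b n : ℕ} (hb : b ≤ n)
    {f : MvPolynomial ((a × Fin r) ⊕ (Fin r × Fin b)) ℝ} {ρ : a → m} {κ : Fin b → Fin (n + 1)}
    (hκ : Function.Injective κ)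
    (h : ∀ κ' : Fin b → Fin n, Function.Injective κ' → Over f ρ κ' (algBoundary m (Fin n) r)) :
    Over f ρ κ (Del m n r) := by
  obtain ⟨φ, -, hd⟩ := exists_avoid (r := 1) (Finset.univ.image κ)
    (by have := Finset.card_image_le (s := Finset.univ) (f := κ); simp at this ⊢; omega)
  have h1 : ∀ j, ∃ j', (φ 0).succAbove j' = κ j := fun j =>
    Fin.exists_succAbove_eq fun hj => hd 0 (by simp [← hj])
  choose κ' hκ' using h1
  intro A B hAB
  refine ⟨φ 0, h κ' (fun j j' hj => hκ (by rw [← hκ', ← hκ', hj])) A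
    (B.submatrix id (φ 0).succAbove) ?_⟩
  have : (B.submatrix id (φ 0).succAbove).submatrix id κ' = B.submatrix id κ := by
    ext k j
    simp [hκ']
  rwa [this]

theorem exists_cover {k c : ℕ} (h : c ≤ k) (s : Finset (Fin k)) (hs : s.card ≤ c) :
    ∃ ρ : Fin c → Fin k, Function.Injective ρ ∧ ∀ i ∈ s, i ∈ Set.range ρ := by
  obtain ⟨t, hst, ht⟩ := Finset.exists_superset_card_eq hs (by simpa using h)
  refine ⟨t.orderEmbOfFin ht, (t.orderEmbOfFin ht).injective, fun i hi => ?_⟩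
  rw [Finset.range_orderEmbOfFin]
  exact hst hi

theorem uniform_fin {ι : Type} {s : Set ι} (hs : s.Finite) {P : ι → ℕ → Prop}
    (h : ∀ i ∈ s, ∃ n0, ∀ n, n0 ≤ n → P i n) : ∃ n0, ∀ n, n0 ≤ n → ∀ i ∈ s, P i n := by
  have := (Set.Finite.eventually_all (l := atTop) hs).2 fun i hi => eventually_atTop.2 (h i hi)
  exact eventually_atTop.1 this

theorem fixed_m {r k : ℕ} (hk : r < k) :
    ∃ n0, ∀ n, n0 ≤ n → topBoundary (Fin k) (Fin (n + 1)) r ⊆ Del (Fin k) n r := by
  obtain ⟨D, hD0, hD⟩ := sard (Fin k) (Fin (r * r + 1)) (Fin r)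
  obtain ⟨n0, h0⟩ := uniform_fin (UniqueFactorizationMonoid.factors D).finite_toSet
    (P := fun f n => ∀ κ : Fin (r * r + 1) → Fin (n + 1), Function.Injective κ →
      Over f id κ (algBoundary (Fin k) (Fin (n + 1)) r) → Over f id κ (Del (Fin k) n r)) (by
      intro f _
      by_cases hex : ∃ l, r * r + 1 + r ≤ l ∧ ∃ κ : Fin (r * r + 1) → Fin l,
          Function.Injective κ ∧ Over f id κ (algBoundary (Fin k) (Fin l) r)
      · obtain ⟨l, h1, κ0, h2, h3⟩ := hex
        exact ⟨l, fun n hn κ hκ _ => over_Del (by omega) hκ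
          fun κ' hκ' => over_col h2 hκ' h1 hn h3⟩
      · exact ⟨r * r + 1 + r, fun n hn κ hκ h => (hex ⟨n + 1, by omega, κ, hκ, h⟩).elim⟩)
  refine ⟨max n0 (r * r + 1 + r), fun n hn => ?_⟩
  have h1 := le_of_max_le_left hn
  have h2 := le_of_max_le_right hn
  refine main_local (by simpa using hk) (by simp; omega) hD0 hD
    {p | p.1 = id ∧ Function.Injective p.2} ?_ ?_ (isClosed_Del n r) ?_
  · rintro p ⟨h3, h4⟩
    exact ⟨h3 ▸ Function.injective_id, h4⟩
  · intro s t _ ht
    obtain ⟨κ, h3, h4⟩ := exists_cover (by omega) t ht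
    exact ⟨(id, κ), ⟨rfl, h3⟩, fun i _ => ⟨i, rfl⟩, h4⟩
  · rintro ⟨ρ, κ⟩ ⟨h3, h4⟩ f hf
    simp only at h3
    subst h3
    exact h0 n h1 f hf κ h4

theorem large_m (r : ℕ) : ∃ n0, ∀ n, n0 ≤ n → ∀ k, r * r + 1 + r ≤ k →
    topBoundary (Fin k) (Fin (n + 1)) r ⊆ Del (Fin k) n r := by
  obtain ⟨D, hD0, hD⟩ := sard (Fin (r * r + 1)) (Fin (r * r + 1)) (Fin r)
  obtain ⟨n0, h0⟩ := uniform_fin (UniqueFactorizationMonoid.factors D).finite_toSet
    (P := fun f n => ∀ k, r * r + 1 + r ≤ k → ∀ (ρ : Fin (r * r + 1) → Fin k)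
      (κ : Fin (r * r + 1) → Fin (n + 1)), Function.Injective ρ → Function.Injective κ →
      Over f ρ κ (algBoundary (Fin k) (Fin (n + 1)) r) → Over f ρ κ (Del (Fin k) n r)) (by
      intro f _
      classical
      by_cases hex : ∃ k, r * r + 1 + r ≤ k ∧ ∃ l, r * r + 1 + r ≤ l ∧
          ∃ (ρ : Fin (r * r + 1) → Fin k) (κ : Fin (r * r + 1) → Fin l), Function.Injective ρ ∧
          Function.Injective κ ∧ Over f ρ κ (algBoundary (Fin k) (Fin l) r)
      · obtain ⟨h1, l, h2, ρ0, κ0, h3, h4, h5⟩ := Nat.find_spec hex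
        refine ⟨max l (r * r + 1 + r), fun n hn k hk ρ κ hρ hκ h => ?_⟩
        have h6 := le_of_max_le_left hn
        have h7 : Nat.find hex ≤ k := Nat.find_min' hex ⟨hk, n + 1, by omega, ρ, κ, hρ, hκ, h⟩
        exact over_Del (by omega) hκ
          fun κ' hκ' => over_row h3 hρ h1 h7 (over_col h4 hκ' h2 h6 h5)
      · exact ⟨r * r + 1 + r, fun n hn k hk ρ κ hρ hκ h =>
          (hex ⟨k, hk, n + 1, by omega, ρ, κ, hρ, hκ, h⟩).elim⟩)
  refine ⟨max n0 (r * r + 1 + r), fun n hn k hk => ?_⟩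
  have h1 := le_of_max_le_left hn
  have h2 := le_of_max_le_right hn
  refine main_local (by simp; omega) (by simp; omega) hD0 hD
    {p | Function.Injective p.1 ∧ Function.Injective p.2} (fun p hp => hp) ?_
    (isClosed_Del n r) ?_
  · intro s t hs ht
    obtain ⟨ρ, h5, h6⟩ := exists_cover (by omega) s hs
    obtain ⟨κ, h3, h4⟩ := exists_cover (by omega) t ht
    exact ⟨(ρ, κ), ⟨h5, h3⟩, h6, h4⟩
  · rintro ⟨ρ, κ⟩ ⟨h3, h4⟩ f hf
    exact h0 n h1 f hf k hk ρ κ h3 h4

theorem small_bd [Fintype n] {r k : ℕ} (hk : k ≤ r) {M : Matrix (Fin k) n ℝ} :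
    M ∈ topBoundary (Fin k) n r ↔ (∀ i j, 0 ≤ M i j) ∧ ∃ i j, M i j = 0 := by
  classical
  have h1 : ∀ N : Matrix (Fin k) n ℝ, N ∈ NF (Fin k) n r ↔ ∀ i j, 0 ≤ N i j := by
    intro N
    constructor
    · rintro ⟨A, B, hA, hB, rfl⟩
      exact mul_nonneg' hA hB
    · intro h
      rw [← Matrix.one_mul N]
      refine mem_NF_of (Fin.castLE hk) (Fin.castLE_injective hk) (fun i j => ?_) h
      rw [Matrix.one_apply]
      split_ifs <;> norm_num
  rw [mem_topBoundary, h1]
  refine and_congr_right fun hM => ⟨fun h => ?_, ?_⟩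
  · by_contra hcon
    push Not at hcon
    have : ∀ᶠ N in 𝓝 M, ∀ i j, 0 < N i j :=
      eventually_all.2 fun i => eventually_all.2 fun j =>
        continuousAt_const.eventually_lt (continuous_apply_apply i j).continuousAt
          (lt_of_le_of_ne (hM i j) (hcon i j).symm)
    obtain ⟨N, h2, h3⟩ := mem_closure_iff_nhds.1 h _ this
    exact h3.2 ((h1 N).2 fun i j => (h2 i j).le)
  · rintro ⟨i, j, hij⟩
    have hc : Continuous fun t : ℝ => M - t • Matrix.single i j (1 : ℝ) :=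
      continuous_const.sub (continuous_id.smul continuous_const)
    have h2 : Tendsto (fun t : ℝ => M - t • Matrix.single i j (1 : ℝ)) (𝓝[>] 0) (𝓝 M) := by
      have := hc.tendsto 0
      simp only [zero_smul, sub_zero] at this
      exact this.mono_left nhdsWithin_le_nhds
    refine mem_closure_of_tendsto h2 ?_
    filter_upwards [self_mem_nhdsWithin] with t ht
    refine ⟨(Matrix.rank_le_card_height _).trans (by simpa using hk), fun h => ?_⟩
    have := (h1 _).1 h i j
    simp only [Matrix.sub_apply, Matrix.smul_apply, hij, Matrix.single_apply_same, smul_eq_mul,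
      mul_one, zero_sub, Left.nonneg_neg_iff] at this
    exact absurd ht (not_lt.2 this)

theorem small_m {r k n : ℕ} (hk : k ≤ r) (hn : 1 ≤ n) :
    topBoundary (Fin k) (Fin (n + 1)) r ⊆ Del (Fin k) n r := by
  intro M hM
  obtain ⟨h1, i, j, h2⟩ := (small_bd hk).1 hM
  have : Nontrivial (Fin (n + 1)) := Fin.nontrivial_iff_two_le.2 (by omega)
  obtain ⟨j0, hj0⟩ := exists_ne j
  obtain ⟨j', hj'⟩ := Fin.exists_succAbove_eq hj0.symm
  exact ⟨j0, subset_zar _ ((small_bd hk).2 ⟨fun a b => h1 _ _, i, j', by simp [hj', h2]⟩)⟩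

theorem stabilization (r : ℕ) : ∃ n0 : ℕ, ∀ n : ℕ, n0 ≤ n → ∀ m : ℕ,
    ∀ M ∈ algBoundary (Fin m) (Fin (n + 1)) r, ∃ i : Fin (n + 1),
      M.submatrix id i.succAbove ∈ algBoundary (Fin m) (Fin n) r := by
  obtain ⟨n1, h1⟩ := large_m r
  obtain ⟨n2, h2⟩ := uniform_fin (Set.finite_Ioo r (r * r + 1 + r))
    (P := fun k n => topBoundary (Fin k) (Fin (n + 1)) r ⊆ Del (Fin k) n r)
    (fun k hk => fixed_m hk.1)
  refine ⟨max (max n1 n2) 1, fun n hn m M hM => zar_Del ?_ hM⟩
  have h3 := le_of_max_le_left (le_of_max_le_left hn)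
  have h4 := le_of_max_le_right (le_of_max_le_left hn)
  have h5 := le_of_max_le_right hn
  by_cases hm : m ≤ r
  · exact small_m hm h5
  by_cases hm' : r * r + 1 + r ≤ m
  · exact h1 n h3 m hm'
  · exact h2 n h4 m ⟨by omega, by omega⟩

end Pool.Agent.H769Z.NR
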